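import Pool.Agent.Work.MP_2738db_nt_Y.Interface3
import Pool.Agent.Work.MP_2738db_nt_Y_helper19.DET
import Pool.Agent.Work.MP_2738db_nt_W.TwoLog

/-!
Block CORR of Theorem Y: the `r`-adic determinant inequality for three logarithms.
-/

set_option autoImplicit false

namespace Pool.Agent.Work.MP_2738db_nt_Y.helper51

open Finset BigOperators
open Pool.Agent.Work.MP_2738db_nt_W (exists_minor abs_det_le det_dvd nc nc_dvd nc_sum)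
open Pool.Agent.Work.MP_2738db_nt_Y.helper19 (weight_sum)

namespace CORR

/-- roots of order prime to `r` in `1 + r Z` modulo `r ^ V` -/
theorem exists_root (r V n a : ℕ) (hr : r.Prime) (hn : Nat.Coprime n r)
    (ha : (r : ℤ) ∣ (a : ℤ) - 1) :
    ∃ θ : ℤ, (r : ℤ) ∣ θ - 1 ∧ (r : ℤ) ^ V ∣ (a : ℤ) - θ ^ n := by
  obtain ⟨m, -, hm⟩ := Nat.exists_mul_mod_eq_one_of_coprime (k := r ^ (V + 1)) (n := n)
    (Nat.Coprime.pow_right _ hn) (Nat.one_lt_pow (by omega) hr.one_lt)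
  refine ⟨(a : ℤ) ^ m, ?_, ?_⟩
  · exact ha.trans (by simpa using sub_dvd_pow_sub_pow (a : ℤ) 1 m)
  · have h1 := Nat.div_add_mod (n * m) (r ^ (V + 1))
    rw [hm] at h1
    set k := n * m / r ^ (V + 1)
    have h2 : ((a : ℤ) ^ m) ^ n = ((a : ℤ) ^ r ^ (V + 1)) ^ k * a := by
      rw [← pow_mul, ← pow_mul, mul_comm m n, ← h1, pow_succ]
    have h3 : (r : ℤ) ^ (V + 1 + 1) ∣ (a : ℤ) ^ r ^ (V + 1) - 1 ^ r ^ (V + 1) := by
      have := dvd_sub_pow_of_dvd_sub (R := ℤ) (p := r) (a := (a : ℤ)) (b := 1) ha (V + 1)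
      exact_mod_cast this
    rw [one_pow] at h3
    have h4 : (r : ℤ) ^ V ∣ ((a : ℤ) ^ r ^ (V + 1)) ^ k - 1 :=
      ((pow_dvd_pow _ (by omega)).trans h3).trans
        (by simpa using sub_dvd_pow_sub_pow ((a : ℤ) ^ r ^ (V + 1)) 1 k)
    rw [h2]
    have h5 : (a : ℤ) - ((a : ℤ) ^ r ^ (V + 1)) ^ k * a = -(a * (((a : ℤ) ^ r ^ (V + 1)) ^ k - 1)) := by
      ring
    rw [h5, dvd_neg]
    exact h4.mul_left _

/-- uniqueness of roots of order prime to `r` -/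
theorem root_unique (r V n : ℕ) (x y : ℤ) (hr : r.Prime) (hn : ¬ r ∣ n)
    (hx : (r : ℤ) ∣ x - 1) (hy : (r : ℤ) ∣ y - 1) (h : (r : ℤ) ^ V ∣ x ^ n - y ^ n) :
    (r : ℤ) ^ V ∣ x - y := by
  have hp : Prime (r : ℤ) := Nat.prime_iff_prime_int.mp hr
  rw [← (Commute.all x y).geom_sum₂_mul n] at h
  have hco : IsCoprime ((r : ℤ) ^ V) (∑ i ∈ range n, x ^ i * y ^ (n - 1 - i)) := by
    apply IsCoprime.pow_left
    rw [Prime.coprime_iff_not_dvd hp]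
    intro h1
    have h2 : ∀ z : ℤ, (r : ℤ) ∣ z - 1 → ∀ i : ℕ, (r : ℤ) ∣ z ^ i - 1 := fun z hz i =>
      hz.trans (by simpa using sub_dvd_pow_sub_pow z 1 i)
    have h3 : (r : ℤ) ∣ (∑ i ∈ range n, x ^ i * y ^ (n - 1 - i)) - (n : ℤ) := by
      have h4 : (∑ i ∈ range n, x ^ i * y ^ (n - 1 - i)) - (n : ℤ) =
          ∑ i ∈ range n, (x ^ i * y ^ (n - 1 - i) - 1) := by
        rw [Finset.sum_sub_distrib]; simp
      rw [h4]
      apply Finset.dvd_sum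
      intro i _
      have h5 : x ^ i * y ^ (n - 1 - i) - 1 = (x ^ i - 1) * y ^ (n - 1 - i) + (y ^ (n - 1 - i) - 1) := by
        ring
      rw [h5]
      exact dvd_add ((h2 x hx i).mul_right _) (h2 y hy _)
    have h6 : (r : ℤ) ∣ (n : ℤ) := by
      have := dvd_sub h1 h3
      simpa using this
    exact hn (Int.natCast_dvd_natCast.mp h6)
  exact hco.dvd_of_dvd_mul_left h

/-- factor out the denominators -/
theorem entry_clear {F : Type*} [Field F] (U S a b c₁ c₂ : F) (hS : S ≠ 0) (r₁ l L : ℕ)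
    (hl : l < L) :
    c₁ * c₂ * (U ^ r₁ * a * b) ^ l * S ^ (r₁ * (L - 1 - l)) =
      S ^ (r₁ * (L - 1)) * (c₁ * c₂ * ((U / S) ^ r₁ * a * b) ^ l) := by
  have h1 : r₁ * (L - 1) = r₁ * (L - 1 - l) + r₁ * l := by
    rw [← Nat.mul_add]; congr 1; omega
  rw [h1, pow_add, div_pow, mul_pow, mul_pow, mul_pow, mul_pow, div_pow, ← pow_mul, ← pow_mul]
  field_simp

/-- the valuation of the determinant -/
theorem det_val2 {ι : Type} [Fintype ι] [DecidableEq ι] (r : ℤ) (Z₁ Z₂ V T G : ℕ) (k₁ k₂ : ι → ℕ)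
    (c₁ c₂ : ι → ℕ → ℤ) (B : ℕ → ℕ → ι → ℤ) (E : ι → ι → ℤ)
    (hc₁ : ∀ i m, r ^ (m - k₁ i) ∣ c₁ i m) (hc₂ : ∀ i m, r ^ (m - k₂ i) ∣ c₂ i m)
    (hT : T * (T + 1) ≤ Fintype.card ι) (hTV : T ≤ V)
    (hG : 2 * G + 2 * ∑ i, (k₁ i + k₂ i) ≤ Fintype.card ι * T) :
    r ^ G ∣ (Matrix.of fun i j => (∑ m₁ ∈ range (Z₁ + 1), ∑ m₂ ∈ range (Z₂ + 1),
      c₁ i m₁ * c₂ i m₂ * B m₁ m₂ j) + r ^ V * E i j).det := by
  classical
  let σ := (Fin (Z₁ + 1) × Fin (Z₂ + 1)) ⊕ ι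
  let C : ι → σ → ℤ := fun i s => Sum.elim
    (fun m : Fin (Z₁ + 1) × Fin (Z₂ + 1) => c₁ i m.1 * c₂ i m.2) (fun j => r ^ V * E i j) s
  let B' : σ → ι → ℤ := fun s j => Sum.elim
    (fun m : Fin (Z₁ + 1) × Fin (Z₂ + 1) => B m.1 m.2 j) (fun j' => if j' = j then 1 else 0) s
  have h1 : (Matrix.of fun i j => (∑ m₁ ∈ range (Z₁ + 1), ∑ m₂ ∈ range (Z₂ + 1),
      c₁ i m₁ * c₂ i m₂ * B m₁ m₂ j) + r ^ V * E i j)
      = Matrix.of fun i j => ∑ s, C i s * B' s j := by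
    funext i j
    simp only [Matrix.of_apply, C, B', σ, Fintype.sum_sum_type, Sum.elim_inl, Sum.elim_inr]
    congr 1
    · rw [Fintype.sum_prod_type, Finset.sum_range]
      apply Finset.sum_congr rfl
      intro m₁ _
      rw [Finset.sum_range]
    · simp
  rw [h1]
  apply det_dvd
  intro f hf
  obtain ⟨wt, hwt⟩ : ∃ wt : (Fin (Z₁ + 1) × Fin (Z₂ + 1)) ⊕ ι → ℕ,
      wt = Sum.elim (fun m => (m.1 : ℕ) + (m.2 : ℕ)) (fun _ => T) := ⟨_, rfl⟩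
  have hv : ∀ i, r ^ (wt (f i) - (k₁ i + k₂ i)) ∣ C i (f i) := by
    intro i
    simp only [C, hwt]
    rcases f i with m | j
    · simp only [Sum.elim_inl]
      refine Dvd.dvd.trans ?_ (mul_dvd_mul (hc₁ i m.1) (hc₂ i m.2))
      rw [← pow_add]
      exact pow_dvd_pow _ (by omega)
    · simp only [Sum.elim_inr]
      exact (pow_dvd_pow _ (by omega)).trans (Dvd.intro _ rfl)
  have hprod : r ^ (∑ i, (wt (f i) - (k₁ i + k₂ i))) ∣ ∏ i, C i (f i) := by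
    rw [← Finset.prod_pow_eq_pow_sum]
    exact Finset.prod_dvd_prod_of_dvd _ _ fun i _ => hv i
  have hsum : G ≤ ∑ i, (wt (f i) - (k₁ i + k₂ i)) := by
    have h5 := weight_sum Z₁ Z₂ T hT f hf wt hwt
    have h7 : ∑ i, wt (f i) ≤ ∑ i, (wt (f i) - (k₁ i + k₂ i)) + ∑ i, (k₁ i + k₂ i) := by
      rw [← Finset.sum_add_distrib]
      apply Finset.sum_le_sum
      intro i _; omega
    omega
  exact (pow_dvd_pow r hsum).trans hprod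

end CORR

open CORR in
theorem corr : Stmt_Zeg → Stmt_Corr := by
  intro hzeg
  intro r V U S Pb Qb p q K L R₁ R Z₁ Z₂ T G B h hr hp hq hpq hrp hrq hU hS hPb hQb hU1 hS1 hP1 hQ1
    hV hK hL hRp hRq hRR hKL hKL2 hZ₁ hZ₂ hT hG hTV hB₁ hB₂ hlU hlS
  classical
  -- the roots
  have hqr : Nat.Coprime q r := (Nat.coprime_primes hq hr).mpr (Ne.symm hrq)
  have hpr : Nat.Coprime p r := (Nat.coprime_primes hp hr).mpr (Ne.symm hrp)
  obtain ⟨θ₁, hθ₁, hθP⟩ := exists_root r V q Pb hr hqr hP1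
  obtain ⟨θ₂, hθ₂, hθQ⟩ := exists_root r V p Qb hr hpr hQ1
  have hmP : (Pb : ℤ) ≡ θ₁ ^ q [ZMOD (r : ℤ) ^ V] := (Int.modEq_iff_dvd.mpr hθP).symm
  have hmQ : (Qb : ℤ) ≡ θ₂ ^ p [ZMOD (r : ℤ) ^ V] := (Int.modEq_iff_dvd.mpr hθQ).symm
  have hone_mul : ∀ x y : ℤ, (r : ℤ) ∣ x - 1 → (r : ℤ) ∣ y - 1 → (r : ℤ) ∣ x * y - 1 := by
    intro x y hx hy
    have : x * y - 1 = (x - 1) * y + (y - 1) := by ring
    rw [this]
    exact dvd_add (hx.mul_right _) hy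
  have hUS : (U : ℤ) * θ₂ ≡ S * θ₁ [ZMOD (r : ℤ) ^ V] := by
    have h1 : (U : ℤ) ^ (p * q) * (Qb : ℤ) ^ q ≡ (S : ℤ) ^ (p * q) * (Pb : ℤ) ^ p [ZMOD (r : ℤ) ^ V] :=
      (Int.modEq_iff_dvd.mpr hV).symm
    have h2 : ((U : ℤ) * θ₂) ^ (p * q) ≡ (S * θ₁) ^ (p * q) [ZMOD (r : ℤ) ^ V] := by
      have h3 : ((U : ℤ) * θ₂) ^ (p * q) = (U : ℤ) ^ (p * q) * (θ₂ ^ p) ^ q := by
        rw [mul_pow, ← pow_mul]
      have h4 : ((S : ℤ) * θ₁) ^ (p * q) = (S : ℤ) ^ (p * q) * (θ₁ ^ q) ^ p := by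
        rw [mul_pow, ← pow_mul, mul_comm q p]
      rw [h3, h4]
      exact ((Int.ModEq.mul_left _ (hmQ.symm.pow q)).trans h1).trans (Int.ModEq.mul_left _ (hmP.pow p))
    have h5 := root_unique r V (p * q) _ _ hr (by
      intro hd
      rcases hr.dvd_mul.mp hd with hd | hd
      · exact hrp ((Nat.prime_dvd_prime_iff_eq hr hp).mp hd)
      · exact hrq ((Nat.prime_dvd_prime_iff_eq hr hq).mp hd))
      (hone_mul _ _ hU1 hθ₂) (hone_mul _ _ hS1 hθ₁) (Int.modEq_iff_dvd.mp h2.symm)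
    exact (Int.modEq_iff_dvd.mpr h5).symm
  -- the matrix
  let P := Fin (2 * R₁) × Fin (2 * R + L) × Fin (2 * R)
  let ι := Fin K × Fin K × Fin L
  let x₁ : P → ℕ := fun t => (t.1 : ℕ) + q * (t.2.1 : ℕ)
  let x₂ : P → ℕ := fun t => p * ((t.2.2 : ℕ) + 1) - (t.1 : ℕ)
  have hx₁ : ∀ t, x₁ t ≤ Z₁ := by
    intro t
    have h1 : q * (t.2.1 : ℕ) ≤ q * (2 * R + L) := Nat.mul_le_mul_left _ t.2.1.2.le
    have h2 := t.1.2.le
    simp only [x₁]; omega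
  have hx₂ : ∀ t, x₂ t ≤ Z₂ := by
    intro t
    have h1 : p * ((t.2.2 : ℕ) + 1) ≤ p * (2 * R) := Nat.mul_le_mul_left _ t.2.2.2
    simp only [x₂]; omega
  have hx₂t : ∀ t : P, (t.1 : ℕ) + x₂ t = p * ((t.2.2 : ℕ) + 1) := by
    intro t
    have h2 : p * 1 ≤ p * ((t.2.2 : ℕ) + 1) := Nat.mul_le_mul_left _ (by omega)
    have h3 := t.1.2
    simp only [x₂]
    omega
  let A : Matrix ι P ℤ := Matrix.of fun i t =>
    (Nat.choose (x₁ t) i.1 : ℤ) * (Nat.choose (x₂ t) i.2.1 : ℤ) *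
      ((U : ℤ) ^ (t.1 : ℕ) * (Pb : ℤ) ^ (t.2.1 : ℕ) * (Qb : ℤ) ^ ((t.2.2 : ℕ) + 1)) ^ (i.2.2 : ℕ) *
      (S : ℤ) ^ ((t.1 : ℕ) * (L - 1 - (i.2.2 : ℕ)))
  let Aq : Matrix ι P ℚ := Matrix.of fun i t =>
    (Nat.choose (x₁ t) i.1 : ℚ) * (Nat.choose (x₂ t) i.2.1 : ℚ) *
      (((U : ℚ) / S) ^ (t.1 : ℕ) * (Pb : ℚ) ^ (t.2.1 : ℕ) * (Qb : ℚ) ^ ((t.2.2 : ℕ) + 1)) ^ (i.2.2 : ℕ)
  obtain ⟨g, hg⟩ := exists_minor Aq (by
    intro c hc
    apply hzeg p q K L R₁ R ((U : ℚ) / S) Pb Qb hp hq hpq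
      (div_pos (by exact_mod_cast hU) (by exact_mod_cast hS)) (by exact_mod_cast hPb)
      (by exact_mod_cast hQb) hK hL hRp hRq hRR hKL hKL2 c
    intro r₁ hr₁ r₂ hr₂ r₃ hr₃
    have := hc (⟨r₁, hr₁⟩, ⟨r₂, hr₂⟩, ⟨r₃, hr₃⟩)
    rw [← this]
    rfl)
  have hSq : (S : ℚ) ≠ 0 := by
    have : (0 : ℚ) < S := by exact_mod_cast hS
    exact this.ne'
  have hdet : (A.submatrix id g).det ≠ 0 := by
    intro h0
    have h1 : ((A.submatrix id g).map (Int.castRingHom ℚ)) =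
        Matrix.of fun i j => ((S : ℚ) ^ (((g j).1 : ℕ) * (L - 1))) * (Aq.submatrix id g) i j := by
      ext i j
      simp only [A, Aq, Matrix.map_apply, Matrix.submatrix_apply, Matrix.of_apply, id_eq, map_mul,
        map_pow, map_natCast]
      exact entry_clear _ _ _ _ _ _ hSq _ _ _ i.2.2.2
    have h2 : ((A.submatrix id g).map (Int.castRingHom ℚ)).det = 0 := by
      rw [← RingHom.mapMatrix_apply, ← RingHom.map_det, h0, map_zero]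
    rw [h1, Matrix.det_mul_row] at h2
    rcases mul_eq_zero.mp h2 with h3 | h3
    · rw [Finset.prod_eq_zero_iff] at h3
      obtain ⟨j, _, hj⟩ := h3
      exact pow_ne_zero _ hSq hj
    · exact hg h3
  -- the entries modulo `r ^ V`
  have hmono : ∀ t : P, (U : ℤ) ^ (t.1 : ℕ) * (Pb : ℤ) ^ (t.2.1 : ℕ) * (Qb : ℤ) ^ ((t.2.2 : ℕ) + 1) ≡
      S ^ (t.1 : ℕ) * (θ₁ ^ (x₁ t) * θ₂ ^ (x₂ t)) [ZMOD (r : ℤ) ^ V] := by
    intro t
    have h1 : (U : ℤ) ^ (t.1 : ℕ) * (Pb : ℤ) ^ (t.2.1 : ℕ) * (Qb : ℤ) ^ ((t.2.2 : ℕ) + 1) ≡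
        (U : ℤ) ^ (t.1 : ℕ) * (θ₁ ^ q) ^ (t.2.1 : ℕ) * (θ₂ ^ p) ^ ((t.2.2 : ℕ) + 1)
        [ZMOD (r : ℤ) ^ V] :=
      Int.ModEq.mul (Int.ModEq.mul_left _ (hmP.pow _)) (hmQ.pow _)
    have h2 : (U : ℤ) ^ (t.1 : ℕ) * (θ₁ ^ q) ^ (t.2.1 : ℕ) * (θ₂ ^ p) ^ ((t.2.2 : ℕ) + 1) =
        ((U : ℤ) * θ₂) ^ (t.1 : ℕ) * (θ₁ ^ (q * (t.2.1 : ℕ)) * θ₂ ^ (x₂ t)) := by
      rw [← pow_mul, ← pow_mul, ← hx₂t t, pow_add, mul_pow]
      ring
    have h3 : ((U : ℤ) * θ₂) ^ (t.1 : ℕ) * (θ₁ ^ (q * (t.2.1 : ℕ)) * θ₂ ^ (x₂ t)) ≡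
        ((S : ℤ) * θ₁) ^ (t.1 : ℕ) * (θ₁ ^ (q * (t.2.1 : ℕ)) * θ₂ ^ (x₂ t)) [ZMOD (r : ℤ) ^ V] :=
      Int.ModEq.mul_right _ (hUS.pow _)
    have h4 : ((S : ℤ) * θ₁) ^ (t.1 : ℕ) * (θ₁ ^ (q * (t.2.1 : ℕ)) * θ₂ ^ (x₂ t)) =
        S ^ (t.1 : ℕ) * (θ₁ ^ (x₁ t) * θ₂ ^ (x₂ t)) := by
      simp only [x₁]
      rw [pow_add, mul_pow]
      ring
    rw [h4] at h3
    exact (h1.trans (by rw [h2])).trans h3
  have hE : ∀ i j : ι, ∃ E : ℤ, A i (g j) =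
      (∑ m₁ ∈ range (Z₁ + 1), ∑ m₂ ∈ range (Z₂ + 1),
        nc (θ₁ ^ (i.2.2 : ℕ)) i.1 m₁ * nc (θ₂ ^ (i.2.2 : ℕ)) i.2.1 m₂ *
          ((Nat.choose (x₁ (g j)) m₁ : ℤ) * (Nat.choose (x₂ (g j)) m₂ : ℤ) *
            (S : ℤ) ^ (((g j).1 : ℕ) * (L - 1)))) + (r : ℤ) ^ V * E := by
    intro i j
    have h1 : (r : ℤ) ^ V ∣ ((U : ℤ) ^ ((g j).1 : ℕ) * (Pb : ℤ) ^ ((g j).2.1 : ℕ) *
        (Qb : ℤ) ^ (((g j).2.2 : ℕ) + 1)) ^ (i.2.2 : ℕ) -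
        ((S : ℤ) ^ ((g j).1 : ℕ) * (θ₁ ^ (x₁ (g j)) * θ₂ ^ (x₂ (g j)))) ^ (i.2.2 : ℕ) :=
      Int.modEq_iff_dvd.mp ((hmono (g j)).pow (i.2.2 : ℕ)).symm
    obtain ⟨E, hE⟩ := h1
    refine ⟨(Nat.choose (x₁ (g j)) i.1 : ℤ) * (Nat.choose (x₂ (g j)) i.2.1 : ℤ) * E *
      (S : ℤ) ^ (((g j).1 : ℕ) * (L - 1 - (i.2.2 : ℕ))), ?_⟩
    have h2 : ∑ m₁ ∈ range (Z₁ + 1), ∑ m₂ ∈ range (Z₂ + 1),
        nc (θ₁ ^ (i.2.2 : ℕ)) i.1 m₁ * nc (θ₂ ^ (i.2.2 : ℕ)) i.2.1 m₂ *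
          ((Nat.choose (x₁ (g j)) m₁ : ℤ) * (Nat.choose (x₂ (g j)) m₂ : ℤ) *
            (S : ℤ) ^ (((g j).1 : ℕ) * (L - 1))) =
        ((Nat.choose (x₁ (g j)) i.1 : ℤ) * (θ₁ ^ (i.2.2 : ℕ)) ^ (x₁ (g j))) *
        ((Nat.choose (x₂ (g j)) i.2.1 : ℤ) * (θ₂ ^ (i.2.2 : ℕ)) ^ (x₂ (g j))) *
          (S : ℤ) ^ (((g j).1 : ℕ) * (L - 1)) := by
      rw [nc_sum _ _ _ _ (hx₁ (g j)), nc_sum _ _ _ _ (hx₂ (g j)), Finset.sum_mul_sum,
        Finset.sum_mul]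
      apply Finset.sum_congr rfl
      intro m₁ _
      rw [Finset.sum_mul]
      apply Finset.sum_congr rfl
      intro m₂ _
      ring
    rw [h2]
    have h3 : (S : ℤ) ^ (((g j).1 : ℕ) * (L - 1)) =
        ((S : ℤ) ^ ((g j).1 : ℕ)) ^ (i.2.2 : ℕ) * (S : ℤ) ^ (((g j).1 : ℕ) * (L - 1 - (i.2.2 : ℕ))) := by
      rw [← pow_mul, ← pow_add, ← Nat.mul_add]
      congr 2
      have := i.2.2.2
      omega
    rw [h3]
    simp only [A, Matrix.of_apply]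
    have h4 : (θ₁ ^ (i.2.2 : ℕ)) ^ (x₁ (g j)) = (θ₁ ^ (x₁ (g j))) ^ (i.2.2 : ℕ) := by
      rw [← pow_mul, ← pow_mul, mul_comm]
    have h5 : (θ₂ ^ (i.2.2 : ℕ)) ^ (x₂ (g j)) = (θ₂ ^ (x₂ (g j))) ^ (i.2.2 : ℕ) := by
      rw [← pow_mul, ← pow_mul, mul_comm]
    rw [h4, h5]
    have h6 : ((S : ℤ) ^ ((g j).1 : ℕ) * (θ₁ ^ (x₁ (g j)) * θ₂ ^ (x₂ (g j)))) ^ (i.2.2 : ℕ) =
        ((S : ℤ) ^ ((g j).1 : ℕ)) ^ (i.2.2 : ℕ) * ((θ₁ ^ (x₁ (g j))) ^ (i.2.2 : ℕ) *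
          (θ₂ ^ (x₂ (g j))) ^ (i.2.2 : ℕ)) := by
      rw [mul_pow, mul_pow]
    rw [h6] at hE
    linear_combination ((Nat.choose (x₁ (g j)) i.1 : ℤ) * (Nat.choose (x₂ (g j)) i.2.1 : ℤ) *
      (S : ℤ) ^ (((g j).1 : ℕ) * (L - 1 - (i.2.2 : ℕ)))) * hE
  choose E hE using hE
  have hEeq : A.submatrix id g = Matrix.of fun i j =>
      (∑ m₁ ∈ range (Z₁ + 1), ∑ m₂ ∈ range (Z₂ + 1),
        nc (θ₁ ^ (i.2.2 : ℕ)) i.1 m₁ * nc (θ₂ ^ (i.2.2 : ℕ)) i.2.1 m₂ *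
          ((Nat.choose (x₁ (g j)) m₁ : ℤ) * (Nat.choose (x₂ (g j)) m₂ : ℤ) *
            (S : ℤ) ^ (((g j).1 : ℕ) * (L - 1)))) + (r : ℤ) ^ V * E i j := by
    funext i j
    exact hE i j
  have hcard : Fintype.card ι = K * K * L := by simp [ι, mul_assoc]
  have hsumk : 2 * ∑ i : ι, ((i.1 : ℕ) + (i.2.1 : ℕ)) = 2 * (K * K * L * (K - 1)) := by
    have h2 := Finset.sum_range_id_mul_two K
    have h3 : ∑ i : ι, (i.1 : ℕ) = (K * L) * ∑ k ∈ range K, k := by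
      rw [Fintype.sum_prod_type]
      simp only [Finset.sum_const, Finset.card_univ, Fintype.card_fin, smul_eq_mul,
        Fintype.card_prod]
      rw [← Finset.mul_sum, Fin.sum_univ_eq_sum_range (fun k => k) K]
    have h4 : ∑ i : ι, (i.2.1 : ℕ) = (K * L) * ∑ k ∈ range K, k := by
      rw [Fintype.sum_prod_type]
      simp only [Fintype.sum_prod_type, Finset.sum_const, Finset.card_univ, Fintype.card_fin,
        smul_eq_mul]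
      rw [← Finset.mul_sum, Fin.sum_univ_eq_sum_range (fun k => k) K, mul_assoc]
    rw [Finset.sum_add_distrib, h3, h4]
    have h5 : 2 * (K * L * ∑ k ∈ range K, k + K * L * ∑ k ∈ range K, k) =
        2 * (K * L * ((∑ k ∈ range K, k) * 2)) := by ring
    rw [h5, h2]
    ring
  have hval : (r : ℤ) ^ G ∣ (A.submatrix id g).det := by
    rw [hEeq]
    apply det_val2 (r : ℤ) Z₁ Z₂ V T G (fun i : ι => (i.1 : ℕ)) (fun i : ι => (i.2.1 : ℕ))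
      (fun i m => nc (θ₁ ^ (i.2.2 : ℕ)) i.1 m) (fun i m => nc (θ₂ ^ (i.2.2 : ℕ)) i.2.1 m)
      (fun m₁ m₂ j => (Nat.choose (x₁ (g j)) m₁ : ℤ) * (Nat.choose (x₂ (g j)) m₂ : ℤ) *
            (S : ℤ) ^ (((g j).1 : ℕ) * (L - 1))) E
    · intro i m
      apply nc_dvd
      exact hθ₁.trans (by simpa using sub_dvd_pow_sub_pow θ₁ 1 (i.2.2 : ℕ))
    · intro i m
      apply nc_dvd
      exact hθ₂.trans (by simpa using sub_dvd_pow_sub_pow θ₂ 1 (i.2.2 : ℕ))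
    · rw [hcard]; exact hT
    · exact hTV
    · rw [hcard, hsumk]; exact hG
  -- size
  have hBnn : 0 ≤ B := le_trans (by positivity) (hB₁ 0 (by omega) 0 (by omega))
  have hUpos : (0 : ℝ) < U := by exact_mod_cast hU
  have hSpos : (0 : ℝ) < S := by exact_mod_cast hS
  have hPpos : (0 : ℝ) < Pb := by exact_mod_cast (by omega : 0 < Pb)
  have hQpos : (0 : ℝ) < Qb := by exact_mod_cast hQb
  have hlU0 : 0 ≤ Real.log U := Real.log_nonneg (by exact_mod_cast hU)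
  have hlS0 : 0 ≤ Real.log S := Real.log_nonneg (by exact_mod_cast hS)
  have hlP0 : 0 ≤ Real.log Pb := Real.log_nonneg (by exact_mod_cast (by omega : 1 ≤ Pb))
  have hlQ0 : 0 ≤ Real.log Qb := Real.log_nonneg (by exact_mod_cast hQb)
  have hh0 : 0 ≤ h := hlU0.trans hlU
  have hsize := abs_det_le (A.submatrix id g)
    (fun _ => B ^ 2 * Real.exp (L * (2 * R₁ * h + (2 * R + L) * Real.log Pb + 2 * R * Real.log Qb))) (by
      intro i j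
      simp only [A, Matrix.submatrix_apply, Matrix.of_apply, id_eq]
      push_cast
      rw [abs_of_nonneg (by positivity), mul_assoc]
      apply mul_le_mul _ _ (by positivity) (by positivity)
      · rw [pow_two]
        exact mul_le_mul (hB₁ _ i.1.2 _ (hx₁ (g j))) (hB₂ _ i.2.1.2 _ (hx₂ (g j))) (by positivity) hBnn
      · have h1 : ((U : ℝ) ^ ((g j).1 : ℕ) * (Pb : ℝ) ^ ((g j).2.1 : ℕ) *
            (Qb : ℝ) ^ (((g j).2.2 : ℕ) + 1)) ^ (i.2.2 : ℕ) *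
            (S : ℝ) ^ (((g j).1 : ℕ) * (L - 1 - (i.2.2 : ℕ))) =
            Real.exp ((i.2.2 : ℕ) * (((g j).1 : ℕ) * Real.log U + ((g j).2.1 : ℕ) * Real.log Pb +
              (((g j).2.2 : ℕ) + 1 : ℕ) * Real.log Qb) +
              (((g j).1 : ℕ) * (L - 1 - (i.2.2 : ℕ)) : ℕ) * Real.log S) := by
          rw [Real.exp_add, Real.exp_nat_mul, Real.exp_add, Real.exp_add, Real.exp_nat_mul,
            Real.exp_nat_mul, Real.exp_nat_mul, Real.exp_nat_mul, Real.exp_log hUpos,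
            Real.exp_log hPpos, Real.exp_log hQpos, Real.exp_log hSpos]
        rw [h1]
        apply Real.exp_le_exp.mpr
        have hl : (((i.2.2 : Fin L) : ℕ) : ℝ) ≤ L := by exact_mod_cast i.2.2.2.le
        have ha : (((g j).1 : ℕ) : ℝ) ≤ 2 * R₁ := by exact_mod_cast (g j).1.2.le
        have hb : (((g j).2.1 : ℕ) : ℝ) ≤ 2 * R + L := by exact_mod_cast (g j).2.1.2.le
        have hc : ((((g j).2.2 : ℕ) + 1 : ℕ) : ℝ) ≤ 2 * R := by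
          exact_mod_cast (g j).2.2.2
        have h2 : ((i.2.2 : ℕ) : ℝ) * (((g j).1 : ℕ) * Real.log U) +
            (((g j).1 : ℕ) * (L - 1 - (i.2.2 : ℕ)) : ℕ) * Real.log S ≤ L * (2 * R₁ * h) := by
          have h3 : (((i.2.2 : ℕ) : ℝ) + ((L - 1 - (i.2.2 : ℕ) : ℕ) : ℝ)) ≤ L := by
            have : (i.2.2 : ℕ) + (L - 1 - (i.2.2 : ℕ)) ≤ L := by
              have := i.2.2.2
              omega
            exact_mod_cast this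
          have h4 : ((i.2.2 : ℕ) : ℝ) * (((g j).1 : ℕ) * Real.log U) +
            (((g j).1 : ℕ) * (L - 1 - (i.2.2 : ℕ)) : ℕ) * Real.log S ≤
            (((i.2.2 : ℕ) : ℝ) + ((L - 1 - (i.2.2 : ℕ) : ℕ) : ℝ)) * ((((g j).1 : ℕ) : ℝ) * h) := by
            rw [add_mul, Nat.cast_mul]
            have h5 : (((g j).1 : ℕ) : ℝ) * Real.log U ≤ (((g j).1 : ℕ) : ℝ) * h :=
              mul_le_mul_of_nonneg_left hlU (by positivity)
            have h6 : (((g j).1 : ℕ) : ℝ) * Real.log S ≤ (((g j).1 : ℕ) : ℝ) * h :=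
              mul_le_mul_of_nonneg_left hlS (by positivity)
            have h7 := mul_le_mul_of_nonneg_left h5 (by positivity : (0 : ℝ) ≤ ((i.2.2 : ℕ) : ℝ))
            have h8 := mul_le_mul_of_nonneg_left h6
              (by positivity : (0 : ℝ) ≤ ((L - 1 - (i.2.2 : ℕ) : ℕ) : ℝ))
            linarith
          refine h4.trans (mul_le_mul h3 ?_ (by positivity) (by positivity))
          exact mul_le_mul_of_nonneg_right ha hh0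
        have h9 : ((i.2.2 : ℕ) : ℝ) * (((g j).2.1 : ℕ) * Real.log Pb) ≤
            L * ((2 * R + L) * Real.log Pb) :=
          mul_le_mul hl (mul_le_mul_of_nonneg_right hb hlP0) (by positivity) (by positivity)
        have h10 : ((i.2.2 : ℕ) : ℝ) * ((((g j).2.2 : ℕ) + 1 : ℕ) * Real.log Qb) ≤
            L * ((2 * R) * Real.log Qb) :=
          mul_le_mul hl (mul_le_mul_of_nonneg_right hc hlQ0) (by positivity) (by positivity)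
        linarith)
  rw [hcard, Finset.prod_const, Finset.card_univ, hcard, mul_pow, ← Real.exp_nat_mul] at hsize
  have h1 : (r : ℤ) ^ G ≤ |(A.submatrix id g).det| :=
    Int.le_of_dvd (abs_pos.mpr hdet) ((dvd_abs _ _).mpr hval)
  have h2 : (r : ℝ) ^ G ≤ |((A.submatrix id g).det : ℝ)| := by exact_mod_cast h1
  refine (h2.trans hsize).trans (le_of_eq ?_)
  push_cast
  ring

end Pool.Agent.Work.MP_2738db_nt_Y.helper51
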