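import Pool.Agent.Work.MP_2738db_nt_Y.Interface3

/-!
Block GLR of Theorem Y: the `r`-adic size of `Im α ^ n` for a Gaussian integer `α`.
-/

set_option autoImplicit false

namespace Pool.Agent.Work.MP_2738db_nt_Y.helper51

namespace GLR

/-- powers of `x + i y` modulo `y ^ 2` -/
theorem pow_form (x y : ℤ) (n : ℕ) :
    ∃ f g : ℤ, ((⟨x, y⟩ : GaussianInt) ^ (n + 1)).re = x ^ (n + 1) + y ^ 2 * f ∧
      ((⟨x, y⟩ : GaussianInt) ^ (n + 1)).im = y * (((n + 1 : ℕ) : ℤ) * x ^ n + y ^ 2 * g) := by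
  induction n with
  | zero => exact ⟨0, 0, by simp, by simp⟩
  | succ n ih =>
    obtain ⟨f, g, h1, h2⟩ := ih
    refine ⟨x * f - (((n + 1 : ℕ) : ℤ) * x ^ n + y ^ 2 * g), x * g + f, ?_, ?_⟩
    · rw [pow_succ, Zsqrtd.re_mul, h1, h2]
      push_cast
      ring
    · rw [pow_succ, Zsqrtd.im_mul, h1, h2]
      push_cast
      ring

/-- lifting the exponent, upper bound -/
theorem lte (r : ℕ) (hr : r.Prime) (V : ℕ) (n : ℕ) : ∀ x y : ℤ, 1 ≤ n → (r : ℤ) ∣ y →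
    ¬ (r : ℤ) ∣ x → (r : ℤ) ^ V ∣ ((⟨x, y⟩ : GaussianInt) ^ n).im → (r : ℤ) ^ V ∣ y * n := by
  have hp : Prime (r : ℤ) := Nat.prime_iff_prime_int.mp hr
  induction n using Nat.strong_induction_on with
  | _ n ih =>
    intro x y hn hy hx hV
    by_cases hrn : r ∣ n
    · obtain ⟨n₁, rfl⟩ := hrn
      have hn1 : 1 ≤ n₁ := by
        rcases Nat.eq_zero_or_pos n₁ with h | h
        · subst h; simp at hn
        · exact h
      obtain ⟨r', hr'⟩ : ∃ r', r = r' + 1 := ⟨r - 1, by have := hr.pos; omega⟩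
      obtain ⟨f, g, h1, h2⟩ := pow_form x y r'
      rw [← hr'] at h1 h2
      obtain ⟨y₀, hy₀⟩ := hy
      have hx1 : ¬ (r : ℤ) ∣ ((⟨x, y⟩ : GaussianInt) ^ r).re := by
        rw [h1]
        intro h
        have h3 : (r : ℤ) ∣ y ^ 2 * f := by rw [hy₀]; exact ⟨y₀ * (r * y₀) * f, by ring⟩
        exact hx (hp.dvd_of_dvd_pow ((dvd_add_left h3).mp h))
      have hy1 : (r : ℤ) ∣ ((⟨x, y⟩ : GaussianInt) ^ r).im := by
        rw [h2, hy₀]
        exact ⟨y₀ * (↑r * x ^ r' + (↑r * y₀) ^ 2 * g), by ring⟩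
      have hlt : n₁ < r * n₁ := by
        have := hr.two_le
        nlinarith
      have hpow : ((⟨x, y⟩ : GaussianInt) ^ (r * n₁)) =
          (⟨((⟨x, y⟩ : GaussianInt) ^ r).re, ((⟨x, y⟩ : GaussianInt) ^ r).im⟩ : GaussianInt) ^ n₁ := by
        rw [pow_mul]
      rw [hpow] at hV
      have h4 := ih n₁ hlt _ _ hn1 hy1 hx1 hV
      rw [h2] at h4
      have h5 : y * (↑r * x ^ r' + y ^ 2 * g) * (n₁ : ℤ) =
          (x ^ r' + r * (y₀ ^ 2 * g)) * (y * ((r * n₁ : ℕ) : ℤ)) := by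
        push_cast
        rw [hy₀]
        ring
      rw [h5] at h4
      have hco : IsCoprime ((r : ℤ) ^ V) (x ^ r' + r * (y₀ ^ 2 * g)) := by
        apply IsCoprime.pow_left
        rw [Prime.coprime_iff_not_dvd hp]
        intro h
        exact hx (hp.dvd_of_dvd_pow ((dvd_add_left (Dvd.intro _ rfl)).mp h))
      exact hco.dvd_of_dvd_mul_left h4
    · obtain ⟨n', rfl⟩ : ∃ n', n = n' + 1 := ⟨n - 1, by omega⟩
      obtain ⟨f, g, h1, h2⟩ := pow_form x y n'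
      rw [h2] at hV
      have hco : IsCoprime ((r : ℤ) ^ V) (((n' + 1 : ℕ) : ℤ) * x ^ n' + y ^ 2 * g) := by
        apply IsCoprime.pow_left
        rw [Prime.coprime_iff_not_dvd hp]
        intro h
        have h3 : (r : ℤ) ∣ y ^ 2 * g := by
          obtain ⟨y₀, hy₀⟩ := hy
          rw [hy₀]; exact ⟨y₀ * (r * y₀) * g, by ring⟩
        rcases hp.dvd_or_dvd ((dvd_add_left h3).mp h) with h4 | h4
        · exact hrn (Int.natCast_dvd_natCast.mp h4)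
        · exact hx (hp.dvd_of_dvd_pow h4)
      exact Dvd.dvd.mul_right (hco.dvd_of_dvd_mul_right hV) _

/-- some power with exponent at most `r ^ 2` is `1` modulo `r` -/
theorem exists_order (r : ℕ) (hr : r.Prime) (α : GaussianInt) (hm : ¬ (r : ℤ) ∣ α.norm) :
    ∃ N : ℕ, 1 ≤ N ∧ N ≤ r ^ 2 ∧ (r : ℤ) ∣ (α ^ N).im := by
  haveI : NeZero r := ⟨hr.ne_zero⟩
  haveI : Fact r.Prime := ⟨hr⟩
  have hp : Prime (r : ℤ) := Nat.prime_iff_prime_int.mp hr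
  let φ : Fin (r ^ 2 + 1) → ZMod r × ZMod r :=
    fun k => (((α ^ (k : ℕ)).re : ℤ), ((α ^ (k : ℕ)).im : ℤ))
  obtain ⟨i, j, hij, hφ⟩ := Fintype.exists_ne_map_eq_of_card_lt φ (by
    rw [Fintype.card_prod, ZMod.card, Fintype.card_fin]; nlinarith)
  wlog hlt : (i : ℕ) < j generalizing i j with H
  · refine H j i hij.symm hφ.symm ?_
    have : (i : ℕ) ≠ j := fun h => hij (Fin.ext h)
    omega
  have h1 : ((r : ℤ)) ∣ (α ^ (j : ℕ)).re - (α ^ (i : ℕ)).re := by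
    have := (Prod.ext_iff.mp hφ).1
    exact (ZMod.intCast_eq_intCast_iff_dvd_sub _ _ r).mp this
  have h2 : ((r : ℤ)) ∣ (α ^ (j : ℕ)).im - (α ^ (i : ℕ)).im := by
    have := (Prod.ext_iff.mp hφ).2
    exact (ZMod.intCast_eq_intCast_iff_dvd_sub _ _ r).mp this
  have h3 : ((r : ℤ) : GaussianInt) ∣ α ^ (j : ℕ) - α ^ (i : ℕ) := by
    rw [Zsqrtd.intCast_dvd]
    exact ⟨by simpa using h1, by simpa using h2⟩
  refine ⟨j - i, by omega, ?_, ?_⟩
  · have := j.2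
    omega
  · have h4 : ((r : ℤ) : GaussianInt) ∣ ((α.norm ^ (i : ℕ) : ℤ) : GaussianInt) * (α ^ ((j : ℕ) - i) - 1) := by
      have h5 : ((α.norm ^ (i : ℕ) : ℤ) : GaussianInt) * (α ^ ((j : ℕ) - i) - 1) =
          (star α) ^ (i : ℕ) * (α ^ (j : ℕ) - α ^ (i : ℕ)) := by
        have h6 : α ^ (j : ℕ) = α ^ (i : ℕ) * α ^ ((j : ℕ) - i) := by
          rw [← pow_add]
          congr 1
          omega
        rw [h6]
        push_cast
        rw [Zsqrtd.norm_eq_mul_conj, mul_pow]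
        ring
      rw [h5]
      exact Dvd.dvd.mul_left h3 _
    rw [Zsqrtd.intCast_dvd] at h4
    have h7 := h4.2
    simp only [Zsqrtd.im_mul, Zsqrtd.im_sub, Zsqrtd.re_intCast, Zsqrtd.im_intCast, Zsqrtd.im_one,
      sub_zero, zero_mul, add_zero] at h7
    rcases hp.dvd_or_dvd h7 with h8 | h8
    · exact absurd (hp.dvd_of_dvd_pow h8) hm
    · exact h8

/-- the imaginary part of a power modulo an odd prime factor of the norm -/
theorem im_mod (u v l : ℤ) (hl : l ∣ u ^ 2 + v ^ 2) (k : ℕ) :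
    l ∣ ((⟨u, v⟩ : GaussianInt) ^ (k + 1)).im - (2 * u) ^ k * v ∧
    l ∣ ((⟨u, v⟩ : GaussianInt) ^ (k + 1)).re * v - (2 * u) ^ k * (u * v) := by
  obtain ⟨m, hm⟩ := hl
  induction k with
  | zero => simp
  | succ k ih =>
    obtain ⟨⟨a, ha⟩, ⟨b, hb⟩⟩ := ih
    rw [pow_succ, Zsqrtd.im_mul, Zsqrtd.re_mul]
    have ha' : ((⟨u, v⟩ : GaussianInt) ^ (k + 1)).im = (2 * u) ^ k * v + l * a := by linarith
    constructor
    · refine ⟨b + u * a, ?_⟩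
      have : ((⟨u, v⟩ : GaussianInt) ^ (k + 1)).re * v = (2 * u) ^ k * (u * v) + l * b := by linarith
      rw [this, ha', pow_succ]
      ring
    · refine ⟨u * b - v ^ 2 * a - (2 * u) ^ k * v * m, ?_⟩
      have : (((⟨u, v⟩ : GaussianInt) ^ (k + 1)).re * u + -1 * ((⟨u, v⟩ : GaussianInt) ^ (k + 1)).im * v) * v
          = (((⟨u, v⟩ : GaussianInt) ^ (k + 1)).re * v) * u
            - ((⟨u, v⟩ : GaussianInt) ^ (k + 1)).im * v ^ 2 := by ring
      rw [this]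
      have h3 : ((⟨u, v⟩ : GaussianInt) ^ (k + 1)).re * v = (2 * u) ^ k * (u * v) + l * b := by linarith
      rw [h3, ha', pow_succ]
      have : v ^ 2 = l * m - u ^ 2 := by linarith
      linear_combination ((2 * u) ^ k * v) * (-1 : ℤ) * hm
  
theorem im_ne_zero (u v : ℤ) (huv : IsCoprime u v) (hu : u ≠ 0) (hv : v ≠ 0)
    (hodd : Odd (u ^ 2 + v ^ 2)) (k : ℕ) : ((⟨u, v⟩ : GaussianInt) ^ (k + 1)).im ≠ 0 := by
  have hu2 : 1 ≤ u ^ 2 := by have := sq_nonneg u; have := pow_ne_zero 2 hu; omega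
  have hv2 : 1 ≤ v ^ 2 := by have := sq_nonneg v; have := pow_ne_zero 2 hv; omega
  have hm : (u ^ 2 + v ^ 2).natAbs ≠ 1 := by omega
  obtain ⟨l, hl, hlm⟩ := Nat.exists_prime_and_dvd hm
  have hp : Prime (l : ℤ) := Nat.prime_iff_prime_int.mp hl
  have hlm' : (l : ℤ) ∣ u ^ 2 + v ^ 2 := Int.natCast_dvd.mpr hlm
  have hlv : ¬ (l : ℤ) ∣ v := by
    intro h
    have h1 : (l : ℤ) ∣ u ^ 2 := (dvd_add_left (h.trans (dvd_pow_self v two_ne_zero))).mp hlm'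
    have h2 : (l : ℤ) ∣ u := hp.dvd_of_dvd_pow h1
    exact hp.not_unit (huv.isUnit_of_dvd' h2 h)
  have hlu : ¬ (l : ℤ) ∣ u := by
    intro h
    have h1 : (l : ℤ) ∣ v ^ 2 := (dvd_add_right (h.trans (dvd_pow_self u two_ne_zero))).mp hlm'
    exact hlv (hp.dvd_of_dvd_pow h1)
  have hl2 : ¬ (l : ℤ) ∣ 2 := by
    intro h
    have h1 : l ∣ 2 := by exact_mod_cast h
    have h2 : l = 2 := (Nat.prime_dvd_prime_iff_eq hl Nat.prime_two).mp h1
    rw [h2] at hlm'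
    obtain ⟨c, hc⟩ := hodd
    obtain ⟨d, hd⟩ := hlm'
    rw [hc] at hd
    push_cast at hd
    omega
  intro h0
  have h1 := (im_mod u v l hlm' k).1
  rw [h0, zero_sub, dvd_neg] at h1
  rcases hp.dvd_or_dvd h1 with h2 | h2
  · rcases hp.dvd_or_dvd (hp.dvd_of_dvd_pow h2) with h3 | h3
    · exact hl2 h3
    · exact hlu h3
  · exact hlv h2

end GLR

open GLR in
theorem glr : Stmt_Glr := by
  intro r n V u v hr huv hu hv hodd hrm hn hV
  have hp : Prime (r : ℤ) := Nat.prime_iff_prime_int.mp hr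
  have hnorm : (⟨u, v⟩ : GaussianInt).norm = u ^ 2 + v ^ 2 := by
    rw [Zsqrtd.norm_def]; ring
  obtain ⟨N, hN1, hN2, hNr⟩ := exists_order r hr ⟨u, v⟩ (by rw [hnorm]; exact hrm)
  set δ : GaussianInt := (⟨u, v⟩ : GaussianInt) ^ N with hδ
  have hnd : δ.re * δ.re + δ.im * δ.im = (u ^ 2 + v ^ 2) ^ N := by
    have h1 : δ.norm = (u ^ 2 + v ^ 2) ^ N := by
      rw [hδ, ← hnorm]
      exact map_pow Zsqrtd.normMonoidHom _ _
    rw [← h1, Zsqrtd.norm_def]; ring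
  have hre : ¬ (r : ℤ) ∣ δ.re := by
    intro h
    have h1 : (r : ℤ) ∣ (u ^ 2 + v ^ 2) ^ N := by
      rw [← hnd]
      exact dvd_add (h.mul_right _) (hNr.mul_right _)
    exact hrm (hp.dvd_of_dvd_pow h1)
  have hdvd : (r : ℤ) ^ V ∣ ((⟨δ.re, δ.im⟩ : GaussianInt) ^ n).im := by
    have h1 : ((⟨δ.re, δ.im⟩ : GaussianInt) ^ n) = ((⟨u, v⟩ : GaussianInt) ^ n) ^ N := by
      change δ ^ n = _
      rw [hδ, ← pow_mul, ← pow_mul, mul_comm]
    rw [h1]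
    obtain ⟨N', rfl⟩ : ∃ N', N = N' + 1 := ⟨N - 1, by omega⟩
    obtain ⟨f, g, h2, h3⟩ := pow_form ((⟨u, v⟩ : GaussianInt) ^ n).re ((⟨u, v⟩ : GaussianInt) ^ n).im N'
    change (r : ℤ) ^ V ∣ ((⟨((⟨u, v⟩ : GaussianInt) ^ n).re, ((⟨u, v⟩ : GaussianInt) ^ n).im⟩ :
      GaussianInt) ^ (N' + 1)).im
    rw [h3]
    exact hV.mul_right _
  have hfin := lte r hr V n δ.re δ.im hn hNr hre hdvd
  have hne : δ.im ≠ 0 := by
    obtain ⟨N', rfl⟩ : ∃ N', N = N' + 1 := ⟨N - 1, by omega⟩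
    exact im_ne_zero u v huv hu hv hodd N'
  have hne2 : δ.im * (n : ℤ) ≠ 0 := mul_ne_zero hne (by exact_mod_cast (by omega : n ≠ 0))
  have hle : (r : ℤ) ^ V ≤ |δ.im * n| := Int.le_of_dvd (abs_pos.mpr hne2) ((dvd_abs _ _).mpr hfin)
  have hle' : (r : ℝ) ^ V ≤ |(δ.im : ℝ)| * n := by
    have : (((r : ℤ) ^ V : ℤ) : ℝ) ≤ ((|δ.im * n| : ℤ) : ℝ) := by exact_mod_cast hle
    push_cast at this
    rwa [abs_mul, Nat.abs_cast] at this
  have hm1 : (1 : ℝ) ≤ (u : ℝ) ^ 2 + (v : ℝ) ^ 2 := by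
    have hu2 : (1 : ℤ) ≤ u ^ 2 := by have := sq_nonneg u; have := pow_ne_zero 2 hu; omega
    have : (0 : ℤ) ≤ v ^ 2 := sq_nonneg v
    have h3 : (1 : ℤ) ≤ u ^ 2 + v ^ 2 := by omega
    exact_mod_cast h3
  have him : 2 * Real.log |(δ.im : ℝ)| ≤ N * Real.log ((u : ℝ) ^ 2 + (v : ℝ) ^ 2) := by
    have h1 : (δ.im : ℝ) ^ 2 ≤ ((u : ℝ) ^ 2 + (v : ℝ) ^ 2) ^ N := by
      have h2 : (δ.im) ^ 2 ≤ (u ^ 2 + v ^ 2) ^ N := by
        rw [← hnd]; nlinarith [mul_self_nonneg δ.re]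
      exact_mod_cast h2
    have h3 := Real.log_le_log (by positivity : (0 : ℝ) < (δ.im : ℝ) ^ 2) h1
    rw [Real.log_pow, Real.log_pow, ← Real.log_abs (δ.im : ℝ)] at h3
    exact_mod_cast h3
  have hlog : V * Real.log r ≤ Real.log |(δ.im : ℝ)| + Real.log n := by
    have hr0 : (0 : ℝ) < r := by exact_mod_cast hr.pos
    have h1 := Real.log_le_log (by positivity : (0 : ℝ) < (r : ℝ) ^ V) hle'
    rwa [Real.log_pow, Real.log_mul (abs_ne_zero.mpr (by exact_mod_cast hne))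
      (by exact_mod_cast (by omega : n ≠ 0))] at h1
  have hL : 0 ≤ Real.log ((u : ℝ) ^ 2 + (v : ℝ) ^ 2) := Real.log_nonneg hm1
  have hNr2 : (N : ℝ) ≤ (r : ℝ) ^ 2 := by exact_mod_cast hN2
  nlinarith [mul_le_mul_of_nonneg_right hNr2 hL]

end Pool.Agent.Work.MP_2738db_nt_Y.helper51
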