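import Pool.Agent.Work.MP_2738db_nt_Y_helper82.R3E

/-!
Theorem Y, phase 5, block R3A: the `r`-part of `c ^ k = x ^ p + e y ^ p`, `p ≥ 5`, `r ≠ p`.
-/

set_option autoImplicit false
set_option linter.unusedSectionVars false

namespace Pool.Agent.Work.MP_2738db_nt_Y.helper51

open Finset NumberField
open Pool.Agent.Work.MP_2738db_nt_A (HB)
open Pool.Agent.Work.MP_2738db_nt_Y
open Pool.Agent.Work.MP_2738db_nt_Y.helper82 (exists_prime HB_mono HB_kappa place_sub_le)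

section
variable {K : Type} [Field K] [NumberField K]

/-- the absolute value of a root of unity -/
theorem abs_root {n : ℕ} (hn : n ≠ 0) {w : 𝓞 K} (hw : w ^ n = 1) (v : InfinitePlace K) :
    v (w : K) = 1 := by
  have h1 : v ((w : K)) ^ n = 1 := by
    rw [← map_pow]
    have : ((w : K)) ^ n = ((w ^ n : 𝓞 K) : K) := by simp
    rw [this, hw]
    simp
  exact (pow_eq_one_iff_of_nonneg (apply_nonneg _ _) hn).mp h1

theorem norm_root {n : ℕ} (hn : n ≠ 0) {w : 𝓞 K} (hw : w ^ n = 1) (φ : K →+* ℂ) :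
    ‖φ (w : K)‖ = 1 := by
  have h1 : ‖φ (w : K)‖ ^ n = 1 := by
    rw [← norm_pow, ← map_pow]
    have : ((w : K)) ^ n = ((w ^ n : 𝓞 K) : K) := by simp
    rw [this, hw]
    simp
  exact (pow_eq_one_iff_of_nonneg (norm_nonneg _) hn).mp h1

/-- conjugation inverts roots of unity -/
theorem tau_root {n : ℕ} (hn : n ≠ 0) {w : 𝓞 K} (hw : w ^ n = 1) {τ : 𝓞 K ≃+* 𝓞 K}
    (hτ : IsConjugation K τ) : τ w * w = 1 := by
  obtain ⟨φ⟩ : Nonempty (K →+* ℂ) := inferInstance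
  have hinj : Function.Injective (fun z : 𝓞 K => φ (z : K)) :=
    φ.injective.comp RingOfIntegers.coe_injective
  apply hinj
  show φ ((τ w * w : 𝓞 K) : K) = φ ((1 : 𝓞 K) : K)
  have e : ((τ w * w : 𝓞 K) : K) = ((τ w : 𝓞 K) : K) * (w : K) := by simp
  rw [e, map_mul, hτ φ w, mul_comm, Complex.mul_conj, Complex.normSq_eq_norm_sq,
    norm_root hn hw φ]
  simp

theorem root_notMem {n : ℕ} (hn : n ≠ 0) {w : 𝓞 K} (hw : w ^ n = 1) {P : Ideal (𝓞 K)}
    (hP : P.IsPrime) : w ∉ P := by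
  intro h
  have h2 : w ^ n ∈ P := Ideal.pow_mem_of_mem P h n (Nat.pos_of_ne_zero hn)
  rw [hw] at h2
  exact hP.ne_top ((Ideal.eq_top_iff_one P).mpr h2)

/-- if `a ^ n = b ^ n`, `a ≠ b` and `a = b` modulo `Q`, then `n b ^ (n-1) = 0` modulo `Q` -/
theorem mem_of_pow_eq (Q : Ideal (𝓞 K)) {a b : 𝓞 K} {n : ℕ} (h : a ^ n = b ^ n) (hne : a ≠ b)
    (hQ : a - b ∈ Q) : ((n : ℕ) : 𝓞 K) * b ^ (n - 1) ∈ Q := by
  have h1 : ∑ i ∈ range n, a ^ i * b ^ (n - 1 - i) = 0 := by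
    have h2 := (Commute.all a b).geom_sum₂_mul n
    rw [h, sub_self] at h2
    exact (mul_eq_zero.mp h2).resolve_right (sub_ne_zero.mpr hne)
  have hab : Ideal.Quotient.mk Q a = Ideal.Quotient.mk Q b := Ideal.Quotient.eq.mpr hQ
  rw [← Ideal.Quotient.eq_zero_iff_mem, map_mul, map_natCast, map_pow, ← geom_sum₂_self,
    ← map_zero (Ideal.Quotient.mk Q), ← h1, map_sum]
  refine Finset.sum_congr rfl fun i _ => ?_
  rw [map_mul, map_pow, map_pow, hab]

/-- different `n`-th roots of unity are different modulo `P` if `n ∉ P` -/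
theorem diff_notMem {n : ℕ} (hn : n ≠ 0) {a b : 𝓞 K} (ha : a ^ n = 1) (hb : b ^ n = 1)
    (hne : a ≠ b) {P : Ideal (𝓞 K)} (hP : P.IsPrime) (hnP : ((n : ℕ) : 𝓞 K) ∉ P) :
    a - b ∉ P := by
  intro h
  have h1 := mem_of_pow_eq P (ha.trans hb.symm) hne h
  rcases hP.mem_or_mem h1 with h2 | h2
  · exact hnP h2
  · exact root_notMem hn hb hP (hP.mem_of_pow_mem _ h2)

/-- one factor of a product in `P ^ m` is in `P ^ m`, if no two are in `P` -/
theorem exists_factor_mem {ι : Type} [DecidableEq ι] (F : Finset ι) (f : ι → 𝓞 K)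
    {P : Ideal (𝓞 K)} (hP : P.IsPrime)
    (hF : ∀ i ∈ F, ∀ j ∈ F, i ≠ j → f i ∈ P → f j ∉ P) {m : ℕ} (hm : 1 ≤ m)
    (h : ∏ i ∈ F, f i ∈ P ^ m) : ∃ i ∈ F, f i ∈ P ^ m := by
  have := hP
  have h1 : ∏ i ∈ F, f i ∈ P := Ideal.pow_le_self (by omega) h
  obtain ⟨i, hi, hfi⟩ := (Ideal.IsPrime.prod_mem_iff (p := P)).mp h1
  refine ⟨i, hi, ?_⟩
  rw [← Finset.mul_prod_erase F f hi, mul_comm] at h
  refine (Ideal.IsPrime.mul_mem_pow P h).resolve_left ?_
  intro h2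
  obtain ⟨j, hj, hfj⟩ := (Ideal.IsPrime.prod_mem_iff (p := P)).mp h2
  exact hF i hi j (Finset.mem_of_mem_erase hj) (Finset.ne_of_mem_erase hj).symm hfi hfj

theorem exists_factor {n : ℕ} (hn : n ≠ 0) {ζ : 𝓞 K} (hζ : IsPrimitiveRoot ζ n)
    {P : Ideal (𝓞 K)} (hP : P.IsPrime) (hnP : ((n : ℕ) : 𝓞 K) ∉ P) {X Y : 𝓞 K} (hY : Y ∉ P)
    {m : ℕ} (hm : 1 ≤ m) (h : X ^ n - Y ^ n ∈ P ^ m) :
    ∃ ω : 𝓞 K, ω ^ n = 1 ∧ X - ω * Y ∈ P ^ m := by
  classical
  rw [hζ.pow_sub_pow_eq_prod_sub_mul X Y (Nat.pos_of_ne_zero hn)] at h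
  have key : ∀ a ∈ Polynomial.nthRootsFinset n (1 : 𝓞 K),
      ∀ b ∈ Polynomial.nthRootsFinset n (1 : 𝓞 K), a ≠ b → X - a * Y ∈ P → X - b * Y ∉ P := by
    intro a ha b hb hab h1 h2
    have ha' := (Polynomial.mem_nthRootsFinset (Nat.pos_of_ne_zero hn) (1 : 𝓞 K)).mp ha
    have hb' := (Polynomial.mem_nthRootsFinset (Nat.pos_of_ne_zero hn) (1 : 𝓞 K)).mp hb
    have h3 := P.sub_mem h2 h1
    have e : X - b * Y - (X - a * Y) = (a - b) * Y := by ring
    rw [e] at h3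
    rcases hP.mem_or_mem h3 with h4 | h4
    · exact diff_notMem hn ha' hb' hab hP hnP h4
    · exact hY h4
  obtain ⟨ω, hω, hm'⟩ := exists_factor_mem (Polynomial.nthRootsFinset n (1 : 𝓞 K))
    (fun ω => X - ω * Y) hP key hm h
  exact ⟨ω, (Polynomial.mem_nthRootsFinset (Nat.pos_of_ne_zero hn) (1 : 𝓞 K)).mp hω, hm'⟩

/-- the congruence -/
theorem congruence {P : Ideal (𝓞 K)} (hP : P.IsPrime) {M s k : ℕ} {X Y α β ω w w' : 𝓞 K}
    (hfac : X - ω * Y ∈ P ^ M) (hY : Y ∉ P)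
    (hrel : (X - w * Y) ^ s * β ^ k = (X - w' * Y) ^ s * α ^ k) :
    (ω - w) ^ s * β ^ k - (ω - w') ^ s * α ^ k ∈ P ^ M := by
  have hd : ∀ u : 𝓞 K, (X - u * Y) ^ s - ((ω - u) * Y) ^ s ∈ P ^ M := by
    intro u
    refine Ideal.mem_of_dvd _ (sub_dvd_pow_sub_pow _ _ s) ?_
    have e : X - u * Y - (ω - u) * Y = X - ω * Y := by ring
    rw [e]; exact hfac
  have hd3 := Ideal.sub_mem _ (Ideal.mul_mem_right (α ^ k) _ (hd w'))
    (Ideal.mul_mem_right (β ^ k) _ (hd w))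
  have e : ((X - w' * Y) ^ s - ((ω - w') * Y) ^ s) * α ^ k -
      ((X - w * Y) ^ s - ((ω - w) * Y) ^ s) * β ^ k =
      Y ^ s * ((ω - w) ^ s * β ^ k - (ω - w') ^ s * α ^ k) := by
    rw [mul_pow, mul_pow]
    linear_combination -hrel
  rw [e] at hd3
  have := hP
  exact (Ideal.IsPrime.mul_mem_pow P hd3).resolve_left
    (fun h => hY (hP.mem_of_pow_mem _ h))

/-- the two numbers of the non-torsion case -/
theorem nontorsion {p : ℕ} (hp : p.Prime) (hp5 : 5 ≤ p) {ω : 𝓞 K} (hω : ω ^ p = 1)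
    (hω1 : ω ≠ 1) {w' : 𝓞 K} (hw' : w' * ω ^ 2 = 1) {s : ℕ} (hs : 1 ≤ s) (i : ℕ) (hi : 1 ≤ i) :
    ((ω - ω ^ 2) ^ s) ^ i ≠ ((ω - w') ^ s) ^ i := by
  intro h
  obtain ⟨φ⟩ : Nonempty (K →+* ℂ) := inferInstance
  have hinj : Function.Injective (fun z : 𝓞 K => φ (z : K)) :=
    φ.injective.comp RingOfIntegers.coe_injective
  have hsi : s * i ≠ 0 := by positivity
  set u : ℂ := φ (ω : K) with hu
  set u' : ℂ := φ (w' : K) with hu'
  have hnu : ‖u‖ = 1 := norm_root hp.ne_zero hω φ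
  have hu0 : u ≠ 0 := by
    intro h0
    rw [h0, norm_zero] at hnu
    exact zero_ne_one hnu
  have hcu : starRingEnd ℂ u * u = 1 := by
    rw [mul_comm, Complex.mul_conj, Complex.normSq_eq_norm_sq, hnu]
    simp
  have hu'u : u' * u ^ 2 = 1 := by
    have h1 := congrArg (fun z : 𝓞 K => φ (z : K)) hw'
    simpa using h1
  have hnu' : ‖u'‖ = 1 := by
    have h1 := congrArg norm hu'u
    rw [norm_mul, norm_pow, hnu] at h1
    simpa using h1
  have hcu' : starRingEnd ℂ u' * u' = 1 := by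
    rw [mul_comm, Complex.mul_conj, Complex.normSq_eq_norm_sq, hnu']
    simp
  have h1 : (u - u ^ 2) ^ (s * i) = (u - u') ^ (s * i) := by
    have h2 := congrArg (fun z : 𝓞 K => φ (z : K)) h
    simp only [← pow_mul] at h2
    simpa using h2
  have h2 : ‖u - u ^ 2‖ = ‖u - u'‖ := by
    have h3 := congrArg norm h1
    rw [norm_pow, norm_pow] at h3
    exact (pow_left_inj₀ (norm_nonneg _) (norm_nonneg _) hsi).mp h3
  have h3 : (u - u ^ 2) * starRingEnd ℂ (u - u ^ 2) = (u - u') * starRingEnd ℂ (u - u') := by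
    rw [Complex.mul_conj, Complex.mul_conj, Complex.normSq_eq_norm_sq,
      Complex.normSq_eq_norm_sq, h2]
  rw [map_sub, map_sub, map_pow] at h3
  set cu : ℂ := starRingEnd ℂ u with hcudef
  set cu' : ℂ := starRingEnd ℂ u' with hcudef'
  have e1 : cu = u ^ (p - 1) := by
    have h4 : u ^ (p - 1) * u = 1 := by
      rw [← pow_succ, Nat.sub_add_cancel hp.one_le]
      have h5 := congrArg (fun z : 𝓞 K => φ (z : K)) hω
      simpa using h5
    exact mul_right_cancel₀ hu0 (hcu.trans h4.symm)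
  have e2 : cu' = u ^ 2 := by
    have h0 : u' ≠ 0 := by
      intro h0
      rw [h0, norm_zero] at hnu'
      exact zero_ne_one hnu'
    refine mul_right_cancel₀ h0 (hcu'.trans ?_)
    rw [mul_comm]
    exact hu'u.symm
  -- `(u ^ 2 - 1) (u ^ 4 - 1) = 0`
  have key : (u ^ 2 - 1) * (u ^ 4 - 1) = 0 := by
    rw [e2] at h3
    -- multiply by u ^ 3
    have h4 := congrArg (fun z => z * u ^ 3) h3
    beta_reduce at h4
    have f1 : (u - u ^ 2) * (cu - cu ^ 2) * u ^ 3 = 2 * u ^ 3 - u ^ 4 - u ^ 2 := by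
      linear_combination (2 * u ^ 3 - u ^ 4 - cu * u ^ 3 + cu * u ^ 4 + 0 - u ^ 2) * hcu
    have f2 : (u - u') * (cu - u ^ 2) * u ^ 3 = 2 * u ^ 3 - u ^ 6 - 1 := by
      linear_combination (u ^ 3 - u' * u ^ 2) * hcu + (u ^ 3 - 1) * hu'u
    rw [f1, f2] at h4
    linear_combination h4
  have hpow : ∀ t : ℕ, u ^ t = 1 → p ∣ t := by
    intro t ht
    have h4 : ω ^ t = 1 := by
      apply hinj
      simpa using ht
    have : Fact p.Prime := ⟨hp⟩
    have h5 : orderOf ω = p := orderOf_eq_prime hω hω1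
    rw [← h5]
    exact orderOf_dvd_of_pow_eq_one h4
  rcases mul_eq_zero.mp key with h4 | h4
  · have := Nat.le_of_dvd (by norm_num) (hpow 2 (sub_eq_zero.mp h4))
    omega
  · have := Nat.le_of_dvd (by norm_num) (hpow 4 (sub_eq_zero.mp h4))
    omega

/-- a bound for the exponent of `P` in a bounded number -/
theorem exists_exponent {P : Ideal (𝓞 K)} (hP : P.IsPrime) {N : ℕ} (hN : N ≠ 0) :
    ∃ M : ℕ, ((N : ℕ) : 𝓞 K) ∉ P ^ M := by
  by_contra hcon
  push Not at hcon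
  have h1 : ((N : ℕ) : 𝓞 K) ∈ ⨅ i : ℕ, P ^ i := by
    rw [Submodule.mem_iInf]
    exact hcon
  rw [Ideal.iInf_pow_eq_bot_of_isDomain P hP.ne_top, Ideal.mem_bot] at h1
  exact hN (by exact_mod_cast h1)

/-- the degenerate case of the torsion alternative -/
theorem degenerate {p : ℕ} (hp : p.Prime) (hp5 : 5 ≤ p) {ζ w' : 𝓞 K} (hζ : ζ ^ p = 1)
    (hζ1 : ζ ≠ 1) (hw' : w' * ζ = 1) {P : Ideal (𝓞 K)} (hP : P.IsPrime)
    (hpP : ((p : ℕ) : 𝓞 K) ∉ P) {M s k : ℕ} (hM : 1 ≤ M) {X Y α β : 𝓞 K}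
    (hfac : X - Y ∈ P ^ M) (hXY : X ≠ Y) (hY : Y ∉ P) (hα : α ∉ P)
    (hrel : (X - ζ * Y) ^ s * β ^ k = (X - w' * Y) ^ s * α ^ k)
    (heq : β ^ (2 * p * k) = α ^ (2 * p * k)) : ((s * (2 * p) : ℕ) : 𝓞 K) ∈ P ^ M := by
  have hw1 : w' ^ p = 1 := by
    have h1 : (w' * ζ) ^ p = 1 := by rw [hw', one_pow]
    rwa [mul_pow, hζ, mul_one] at h1
  have hw'1 : w' ≠ 1 := by
    rintro rfl
    exact hζ1 (by simpa using hw')
  have hfacP : X - Y ∈ P := Ideal.pow_le_self (by omega) hfac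
  have hz'P : X - w' * Y ∉ P := by
    intro h
    have h1 := P.sub_mem h hfacP
    have e : X - w' * Y - (X - Y) = (1 - w') * Y := by ring
    rw [e] at h1
    rcases hP.mem_or_mem h1 with h2 | h2
    · exact diff_notMem hp.ne_zero (one_pow p) hw1 hw'1.symm hP hpP h2
    · exact hY h2
  have hα0 : α ≠ 0 := fun h => hα (h ▸ P.zero_mem)
  have hneg : (-ζ) ^ (2 * p) = 1 := by
    rw [pow_mul, neg_sq, ← pow_mul, mul_comm 2 p, pow_mul, hζ, one_pow]
  have h1 : (X - ζ * Y) ^ (s * (2 * p)) = (X - w' * Y) ^ (s * (2 * p)) := by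
    have h2 := congrArg (fun z => z ^ (2 * p)) hrel
    beta_reduce at h2
    rw [mul_pow, mul_pow, ← pow_mul, ← pow_mul, ← pow_mul, ← pow_mul, mul_comm k (2 * p),
      heq] at h2
    exact mul_right_cancel₀ (pow_ne_zero _ hα0) h2
  have h2 : (X - ζ * Y) ^ (s * (2 * p)) = (-ζ * (X - w' * Y)) ^ (s * (2 * p)) := by
    rw [mul_pow, h1, mul_comm s (2 * p), pow_mul (-ζ), hneg, one_pow, one_mul]
  have hodd : Odd p := hp.odd_of_ne_two (by omega)
  have hζn : 1 + ζ ≠ 0 := by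
    intro h
    have h3 : ζ = -1 := by linear_combination h
    rw [h3, hodd.neg_one_pow] at hζ
    have h4 : (2 : 𝓞 K) = 0 := by linear_combination -hζ
    exact two_ne_zero h4
  have hdiff : X - ζ * Y - (-ζ * (X - w' * Y)) = (1 + ζ) * (X - Y) := by
    linear_combination (-Y) * hw'
  have hne : X - ζ * Y ≠ -ζ * (X - w' * Y) := by
    intro h
    have h3 := sub_eq_zero.mpr h
    rw [hdiff] at h3
    rcases mul_eq_zero.mp h3 with h4 | h4
    · exact hζn h4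
    · exact hXY (sub_eq_zero.mp h4)
  have hmem : X - ζ * Y - (-ζ * (X - w' * Y)) ∈ P ^ M := by
    rw [hdiff]
    exact Ideal.mul_mem_left _ _ hfac
  have h3 := mem_of_pow_eq (P ^ M) h2 hne hmem
  have := hP
  rw [mul_comm] at h3
  refine (Ideal.IsPrime.mul_mem_pow P h3).resolve_left ?_
  intro h4
  have h5 := hP.mem_of_pow_mem _ h4
  rcases hP.mem_or_mem h5 with h6 | h6
  · exact root_notMem hp.ne_zero hζ hP (by simpa using P.neg_mem h6)
  · exact hz'P h6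

/-- the numbers -/
theorem final_bound {r c k : ℕ} (hr : r.Prime) (hc : 2 ≤ c) {C1 S : ℝ} (hC1 : 1 ≤ C1)
    (hS : 1 ≤ S)
    (h : (k : ℝ) * (padicValNat r c : ℝ) ≤ C1 * (2 * S * Real.log c) * (1 + Real.log k) ^ 2 ∨
      (k : ℝ) ≤ C1) :
    (k : ℝ) * (padicValNat r c : ℝ) ≤
      (2 * C1 * S + 2 * C1) * Real.log c * (1 + Real.log k) ^ 2 := by
  have : Fact r.Prime := ⟨hr⟩
  have hl2 : (1 : ℝ) / 2 ≤ Real.log 2 := by
    have := Real.log_two_gt_d9
    linarith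
  have hlc : Real.log 2 ≤ Real.log c :=
    Real.log_le_log (by norm_num) (by exact_mod_cast hc)
  have hlc0 : 0 < Real.log c := by linarith
  have hlk : 0 ≤ Real.log k := Real.log_natCast_nonneg k
  have hsq : 1 ≤ (1 + Real.log k) ^ 2 := by nlinarith
  rcases h with h | h
  · refine h.trans ?_
    have h5 : C1 * (2 * S * Real.log c) * (1 + Real.log k) ^ 2 +
        2 * C1 * Real.log c * (1 + Real.log k) ^ 2 =
        (2 * C1 * S + 2 * C1) * Real.log c * (1 + Real.log k) ^ 2 := by ring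
    rw [← h5]
    have : 0 ≤ 2 * C1 * Real.log c * (1 + Real.log k) ^ 2 := by positivity
    linarith
  · have hv : (padicValNat r c : ℝ) ≤ 2 * Real.log c := by
      have h5 : (r : ℝ) ^ padicValNat r c ≤ c := by
        exact_mod_cast Nat.le_of_dvd (by omega) pow_padicValNat_dvd
      have h6 : (padicValNat r c : ℝ) * Real.log r ≤ Real.log c := by
        rw [← Real.log_pow]
        exact Real.log_le_log (by have := hr.pos; positivity) h5
      have h7 : Real.log 2 ≤ Real.log r :=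
        Real.log_le_log (by norm_num) (by exact_mod_cast hr.two_le)
      have h8 : (0 : ℝ) ≤ (padicValNat r c : ℝ) := Nat.cast_nonneg _
      nlinarith
    have h6 : (k : ℝ) * (padicValNat r c : ℝ) ≤ C1 * (2 * Real.log c) :=
      mul_le_mul h hv (Nat.cast_nonneg _) (by linarith)
    refine h6.trans ?_
    have h7 : C1 * (2 * Real.log c) * 1 ≤ C1 * (2 * Real.log c) * (1 + Real.log k) ^ 2 :=
      mul_le_mul_of_nonneg_left hsq (by positivity)
    have h8 : 0 ≤ 2 * C1 * S * Real.log c * (1 + Real.log k) ^ 2 := by positivity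
    nlinarith

theorem small_bound {c k M M3 : ℕ} (hc : 2 ≤ c) (h : M ≤ M3) :
    (M : ℝ) ≤ 2 * M3 * Real.log c * (1 + Real.log k) ^ 2 := by
  have hl2 : (1 : ℝ) / 2 ≤ Real.log 2 := by
    have := Real.log_two_gt_d9
    linarith
  have hlc : Real.log 2 ≤ Real.log c :=
    Real.log_le_log (by norm_num) (by exact_mod_cast hc)
  have hlk : 0 ≤ Real.log k := Real.log_natCast_nonneg k
  have hsq : 1 ≤ (1 + Real.log k) ^ 2 := by nlinarith
  have h1 : (M : ℝ) ≤ M3 := by exact_mod_cast h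
  have h3 : (0 : ℝ) ≤ M3 := Nat.cast_nonneg _
  have h2 : (M3 : ℝ) * 1 ≤ M3 * (2 * Real.log c) :=
    mul_le_mul_of_nonneg_left (by linarith) h3
  have h4 : M3 * (2 * Real.log c) * 1 ≤ M3 * (2 * Real.log c) * (1 + Real.log k) ^ 2 :=
    mul_le_mul_of_nonneg_left hsq (by positivity)
  nlinarith

end

/-- **R3A** -/
theorem r3a : Stmt_Cyd → Stmt_Kup → Stmt_Rg → Stmt_R3a := by
  intro hcyd hkup hrg p r e hp hr hp5 hrp he
  obtain ⟨K, _, _, ζ, τ, hζ, hτ, hfin, hdisc⟩ := hcyd p (Or.inl ⟨hp, by omega⟩)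
  obtain ⟨C0, hC0, hkup⟩ := hkup
  obtain ⟨P, hP, hP0, hrP⟩ := exists_prime (K := K) hr.two_le
  set S : ℝ := Real.exp ((p : ℝ) ^ C0) with hSdef
  have hS1 : 1 ≤ S := Real.one_le_exp (by positivity)
  have hp0 : (0 : ℝ) ≤ (p : ℝ) := Nat.cast_nonneg p
  have hB1 : 1 ≤ S + 2 * p := by linarith
  obtain ⟨C1, hC1, hrg⟩ := hrg K P (S + 2 * p) hP hP0 hB1
  have hN0 : (⌊S⌋₊ * (2 * p)).factorial ≠ 0 := Nat.factorial_ne_zero _
  obtain ⟨M3, hM3⟩ := exists_exponent hP hN0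
  have hm30 : (0 : ℝ) ≤ M3 := Nat.cast_nonneg _
  refine ⟨2 * C1 * S + 2 * C1 + 2 * M3, by nlinarith, ?_⟩
  intro x y c k hx hy hxy hk hc hrc hE
  have hodd : Odd p := hp.odd_of_ne_two (by omega)
  -- the integer `Y = - e y`
  obtain ⟨Z, hZ⟩ : ∃ Z : ℤ, Z = -e * (y : ℤ) := ⟨_, rfl⟩
  have hcop0 : IsCoprime (x : ℤ) (y : ℤ) := Nat.isCoprime_iff_coprime.mpr hxy
  have hcop : IsCoprime (x : ℤ) Z := by
    rcases he with rfl | rfl
    · have : Z = -(y : ℤ) := by rw [hZ]; ring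
      rw [this]; exact hcop0.neg_right
    · have : Z = (y : ℤ) := by rw [hZ]; ring
      rw [this]; exact hcop0
  have hEZ : (x : ℤ) ^ p - Z ^ p = (c : ℤ) ^ k := by
    rw [← hE]
    rcases he with rfl | rfl
    · have : Z = -(y : ℤ) := by rw [hZ]; ring
      rw [this, hodd.neg_pow]; ring
    · have : Z = (y : ℤ) := by rw [hZ]; ring
      rw [this]; ring
  have hxZ : (x : ℤ) ≠ Z := by
    intro h
    rw [h, sub_self] at hEZ
    have h1 : (c : ℤ) ^ k ≠ 0 := pow_ne_zero _ (by exact_mod_cast (by omega : c ≠ 0))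
    exact h1 hEZ.symm
  have hEK : (((x : ℤ) : 𝓞 K)) ^ p - ((Z : ℤ) : 𝓞 K) ^ p = ((c : ℕ) : 𝓞 K) ^ k := by
    have h1 := congrArg (Int.cast : ℤ → 𝓞 K) hEZ
    push_cast at h1 ⊢
    exact h1
  have h1P : (1 : 𝓞 K) ∉ P := fun h => hP.ne_top ((Ideal.eq_top_iff_one P).mpr h)
  have hcopr : ∀ a b : ℤ, IsCoprime a b → ((a : ℤ) : 𝓞 K) ∈ P → ((b : ℤ) : 𝓞 K) ∉ P := by
    intro a b hab ha hb
    obtain ⟨u, v, huv⟩ := hab
    apply h1P
    have h8 : ((u : ℤ) : 𝓞 K) * ((a : ℤ) : 𝓞 K) + ((v : ℤ) : 𝓞 K) * ((b : ℤ) : 𝓞 K) ∈ P :=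
      P.add_mem (P.mul_mem_left _ ha) (P.mul_mem_left _ hb)
    have h9 : ((u : ℤ) : 𝓞 K) * ((a : ℤ) : 𝓞 K) + ((v : ℤ) : 𝓞 K) * ((b : ℤ) : 𝓞 K) = 1 := by
      exact_mod_cast congrArg (Int.cast : ℤ → 𝓞 K) huv
    rwa [h9] at h8
  have hpP : ((p : ℕ) : 𝓞 K) ∉ P := by
    have h1 : IsCoprime (r : ℤ) (p : ℤ) :=
      Nat.isCoprime_iff_coprime.mpr ((Nat.coprime_primes hr hp).mpr hrp)
    have h2 := hcopr _ _ h1 (by simpa using hrP)
    simpa using h2
  have hcP : ((c : ℕ) : 𝓞 K) ∈ P := by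
    obtain ⟨d, hd⟩ := hrc
    rw [hd]; push_cast
    exact P.mul_mem_right _ hrP
  have hZP : ((Z : ℤ) : 𝓞 K) ∉ P := by
    intro h
    have h5 : ((x : ℤ) : 𝓞 K) ^ p ∈ P := by
      have h6 : ((c : ℕ) : 𝓞 K) ^ k ∈ P := Ideal.pow_mem_of_mem P hcP k (by omega)
      have h7 : ((Z : ℤ) : 𝓞 K) ^ p ∈ P := Ideal.pow_mem_of_mem P h p hp.pos
      have h8 := P.add_mem h6 h7
      rwa [← hEK, sub_add_cancel] at h8
    exact hcopr _ _ hcop (hP.mem_of_pow_mem _ h5) h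
  have : Fact r.Prime := ⟨hr⟩
  have hv1 : 1 ≤ padicValNat r c := one_le_padicValNat_of_dvd (by omega) hrc
  have hM1 : 1 ≤ k * padicValNat r c := Nat.one_le_iff_ne_zero.mpr (by positivity)
  have hcM : ((x : ℤ) : 𝓞 K) ^ p - ((Z : ℤ) : 𝓞 K) ^ p ∈ P ^ (k * padicValNat r c) := by
    rw [hEK, mul_comm, pow_mul]
    refine Ideal.pow_mem_pow ?_ k
    obtain ⟨d, hd⟩ : r ^ padicValNat r c ∣ c := pow_padicValNat_dvd
    have h5 : ((c : ℕ) : 𝓞 K) = ((r : ℕ) : 𝓞 K) ^ padicValNat r c * ((d : ℕ) : 𝓞 K) := by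
      exact_mod_cast congrArg (Nat.cast : ℕ → 𝓞 K) hd
    rw [h5]
    exact Ideal.mul_mem_right _ _ (Ideal.pow_mem_pow hrP _)
  obtain ⟨ω, hω, hfac⟩ := exists_factor hp.ne_zero hζ hP hpP hZP hM1 hcM
  have hfacP : ((x : ℤ) : 𝓞 K) - ω * ((Z : ℤ) : 𝓞 K) ∈ P := Ideal.pow_le_self (by omega) hfac
  have hζp : ζ ^ p = 1 := hζ.pow_eq_one
  -- the choice of `j`
  obtain ⟨j, hj, hj1, hj2, hj3, hj4⟩ : ∃ j : ℕ, Nat.Coprime j p ∧ ω ≠ ζ ^ j ∧ ω ≠ τ (ζ ^ j) ∧
      (ω = 1 → ζ ^ j = ζ) ∧ (ω ≠ 1 → ζ ^ j = ω ^ 2) := by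
    by_cases hω1 : ω = 1
    · refine ⟨1, Nat.coprime_one_left p, ?_, ?_, fun _ => pow_one ζ, fun h => absurd hω1 h⟩
      · rw [pow_one, hω1]
        intro h
        exact hζ.ne_one (by omega) h.symm
      · rw [pow_one, hω1]
        intro h
        have h1 := tau_root hp.ne_zero hζp hτ
        rw [← h, one_mul] at h1
        exact hζ.ne_one (by omega) h1
    · have : NeZero p := ⟨hp.ne_zero⟩
      obtain ⟨i, hi, hi'⟩ := hζ.eq_pow_of_pow_eq_one hω
      have hi0 : i ≠ 0 := by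
        rintro rfl
        exact hω1 (by rw [← hi', pow_zero])
      have hcop2 : Nat.Coprime (2 * i) p := by
        rw [Nat.coprime_comm, hp.coprime_iff_not_dvd, hp.dvd_mul]
        rintro (h | h)
        · have := Nat.le_of_dvd (by norm_num) h
          omega
        · have := Nat.le_of_dvd (by omega) h
          omega
      have hz2 : ζ ^ (2 * i) = ω ^ 2 := by rw [mul_comm, pow_mul, hi']
      have hroot2 : (ω ^ 2) ^ p = 1 := by rw [← pow_mul, mul_comm, pow_mul, hω, one_pow]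
      have hω0 : ω ≠ 0 := fun h => by
        rw [h, zero_pow hp.ne_zero] at hω
        exact zero_ne_one hω
      have hfactp : Fact p.Prime := ⟨hp⟩
      have hord : orderOf ω = p := orderOf_eq_prime hω hω1
      refine ⟨2 * i, hcop2, ?_, ?_, fun h => absurd h hω1, fun _ => hz2⟩
      · rw [hz2]
        intro h
        have h1 : ω * 1 = ω * ω := by rw [mul_one, ← sq, ← h]
        exact hω1 (mul_left_cancel₀ hω0 h1).symm
      · rw [hz2]
        intro h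
        have h1 := tau_root hp.ne_zero hroot2 hτ
        rw [← h] at h1
        have h2 : ω ^ 3 = 1 := by rw [← h1]; ring
        have h3 := orderOf_dvd_of_pow_eq_one h2
        rw [hord] at h3
        have := Nat.le_of_dvd (by norm_num) h3
        omega
  obtain ⟨s, α, hs1, hsS, hα, hτα, hrel, hPα, hPτα⟩ :=
    hkup K p ζ τ (x : ℤ) Z c k j (Or.inl ⟨hp, by omega⟩) hζ hτ hfin hdisc hcop hc (by omega)
      (Or.inl hEZ) hj
  have hwp : (ζ ^ j) ^ p = 1 := by rw [← pow_mul, mul_comm, pow_mul, hζp, one_pow]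
  have hτw := tau_root hp.ne_zero hwp hτ
  have hw'p : (τ (ζ ^ j)) ^ p = 1 := by rw [← map_pow, hwp, map_one]
  set w : 𝓞 K := ζ ^ j with hwdef
  set w' : 𝓞 K := τ w with hw'def
  have hk1P : ω - w ∉ P := diff_notMem hp.ne_zero hω hwp hj1 hP hpP
  have hk2P : ω - w' ∉ P := diff_notMem hp.ne_zero hω hw'p hj2 hP hpP
  have hαP : α ∉ P := by
    intro h
    have h6 := P.sub_mem (hPα P hP h).1 hfacP
    have e : ((x : ℤ) : 𝓞 K) - w * ((Z : ℤ) : 𝓞 K) -
        (((x : ℤ) : 𝓞 K) - ω * ((Z : ℤ) : 𝓞 K)) = (ω - w) * ((Z : ℤ) : 𝓞 K) := by ring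
    rw [e] at h6
    rcases hP.mem_or_mem h6 with h7 | h7
    · exact hk1P h7
    · exact hZP h7
  have hταP : τ α ∉ P := by
    intro h
    have h6 := P.sub_mem (hPτα P hP h).1 hfacP
    have e : ((x : ℤ) : 𝓞 K) - w' * ((Z : ℤ) : 𝓞 K) -
        (((x : ℤ) : 𝓞 K) - ω * ((Z : ℤ) : 𝓞 K)) = (ω - w') * ((Z : ℤ) : 𝓞 K) := by ring
    rw [e] at h6
    rcases hP.mem_or_mem h6 with h7 | h7
    · exact hk2P h7
    · exact hZP h7
  have hcong := congruence (w := w) (w' := w') hP hfac hZP hrel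
  -- heights
  have hSB : S ≤ S + 2 * p := by linarith
  have hb1 : HB K ((ω - w) ^ s) (S + 2 * p) :=
    HB_mono (HB_kappa (fun v => place_sub_le v (abs_root hp.ne_zero hω v).le
      (abs_root hp.ne_zero hwp v).le) hsS) hSB
  have hb2 : HB K ((ω - w') ^ s) (S + 2 * p) :=
    HB_mono (HB_kappa (fun v => place_sub_le v (abs_root hp.ne_zero hω v).le
      (abs_root hp.ne_zero hw'p v).le) hsS) hSB
  -- logarithms
  have hl2 : (1 : ℝ) / 2 ≤ Real.log 2 := by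
    have := Real.log_two_gt_d9
    linarith
  have hlc : Real.log 2 ≤ Real.log c :=
    Real.log_le_log (by norm_num) (by exact_mod_cast hc)
  have hlc0 : 0 < Real.log c := by linarith
  have hlk : 0 ≤ Real.log k := Real.log_natCast_nonneg k
  have hA1 : 1 ≤ 2 * S * Real.log c := by nlinarith
  have hAle : S * Real.log c ≤ 2 * S * Real.log c := by nlinarith
  have hsq0 : 0 ≤ Real.log c * (1 + Real.log k) ^ 2 := by positivity
  have hmain : ∀ _ : ((∀ i : ℕ, 1 ≤ i → ((ω - w) ^ s) ^ i ≠ ((ω - w') ^ s) ^ i) ∨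
      ∃ i : ℕ, 1 ≤ i ∧ (i : ℝ) ≤ S + 2 * p ∧ ((ω - w) ^ s) ^ i = ((ω - w') ^ s) ^ i ∧
        (τ α) ^ (i * k) ≠ α ^ (i * k)),
      (k : ℝ) * (padicValNat r c : ℝ) ≤
        (2 * C1 * S + 2 * C1 + 2 * M3) * Real.log c * (1 + Real.log k) ^ 2 := by
    intro halt
    have hfinal := hrg ((ω - w) ^ s) ((ω - w') ^ s) (τ α) α k (k * padicValNat r c)
      (2 * S * Real.log c) (fun h => hk1P (hP.mem_of_pow_mem _ h))
      (fun h => hk2P (hP.mem_of_pow_mem _ h)) hταP hαP (by omega) hA1 hb1 hb2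
      (HB_mono hτα hAle) (HB_mono hα hAle) halt hcong
    push_cast at hfinal
    refine (final_bound hr hc hC1 hS1 hfinal).trans ?_
    have h5 : (2 * C1 * S + 2 * C1 + 2 * M3) * Real.log c * (1 + Real.log k) ^ 2 =
        (2 * C1 * S + 2 * C1) * Real.log c * (1 + Real.log k) ^ 2 +
        2 * M3 * (Real.log c * (1 + Real.log k) ^ 2) := by ring
    rw [h5]
    have h6 : 0 ≤ 2 * M3 * (Real.log c * (1 + Real.log k) ^ 2) := by positivity
    linarith
  by_cases hω1 : ω = 1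
  · -- the torsion case
    have hwζ : w = ζ := hj3 hω1
    rw [hω1, one_mul] at hfac
    have hζw' : w' * ζ = 1 := by rw [← hτw, hwζ]
    by_cases heq : (τ α) ^ (2 * p * k) = α ^ (2 * p * k)
    · rw [hwζ] at hrel
      have hdeg := degenerate hp hp5 hζp (hζ.ne_one (by omega)) hζw' hP hpP hM1 hfac
        (fun h => hxZ (by exact_mod_cast h)) hZP hαP hrel heq
      have hlt : k * padicValNat r c ≤ M3 := by
        by_contra hcon
        push Not at hcon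
        apply hM3
        refine Ideal.pow_le_pow_right hcon.le ?_
        have h1 : s ≤ ⌊S⌋₊ := Nat.le_floor hsS
        have h2 : s * (2 * p) ∣ (⌊S⌋₊ * (2 * p)).factorial :=
          Nat.dvd_factorial (by have := hp.pos; positivity)
            (Nat.mul_le_mul_right _ h1)
        obtain ⟨d, hd⟩ := h2
        rw [hd, Nat.cast_mul]
        exact Ideal.mul_mem_right _ _ hdeg
      have h7 := small_bound (k := k) hc hlt
      push_cast at h7
      refine h7.trans ?_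
      have h5 : (2 * C1 * S + 2 * C1 + 2 * M3) * Real.log c * (1 + Real.log k) ^ 2 =
          (2 * C1 * S + 2 * C1) * (Real.log c * (1 + Real.log k) ^ 2) +
          2 * M3 * Real.log c * (1 + Real.log k) ^ 2 := by ring
      rw [h5]
      have h6 : 0 ≤ (2 * C1 * S + 2 * C1) * (Real.log c * (1 + Real.log k) ^ 2) := by
        positivity
      linarith
    · refine hmain (Or.inr ⟨2 * p, by have := hp.pos; omega, ?_, ?_, heq⟩)
      · push_cast; linarith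
      · have hneg : (-ζ) ^ (2 * p) = 1 := by
          rw [pow_mul, neg_sq, ← pow_mul, mul_comm 2 p, pow_mul, hζp, one_pow]
        have e1 : ω - w = (-ζ) * (ω - w') := by
          rw [hω1, hwζ]
          linear_combination (-1 : 𝓞 K) * hζw'
        rw [e1, ← pow_mul, ← pow_mul, mul_pow, mul_comm s (2 * p), pow_mul (-ζ), hneg, one_pow,
          one_mul]
  · refine hmain (Or.inl fun i hi => ?_)
    have hw2 : w = ω ^ 2 := hj4 hω1
    have hw'ω : w' * ω ^ 2 = 1 := by rw [← hτw, hw2]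
    rw [hw2]
    exact nontorsion hp hp5 hω hω1 hw'ω hs1 i hi

end Pool.Agent.Work.MP_2738db_nt_Y.helper51
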