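import Pool.Agent.Work.MP_2738db_nt_Y_helper51.R3A

/-!
Theorem Y, phase 5, block R3C: the `p`-part of `c ^ k = x ^ p + e y ^ p`.
-/

set_option autoImplicit false
set_option linter.unusedSectionVars false

namespace Pool.Agent.Work.MP_2738db_nt_Y.helper51

open Finset NumberField
open Pool.Agent.Work.MP_2738db_nt_A (HB)
open Pool.Agent.Work.MP_2738db_nt_Y
open Pool.Agent.Work.MP_2738db_nt_Y.helper82 (exists_prime HB_mono)

section
variable {K : Type} [Field K] [NumberField K]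

theorem one_sub_dvd {n : ℕ} {w : 𝓞 K} (hw : w ^ n = 1) (hw1 : w ≠ 1) :
    1 - w ∣ ((n : ℕ) : 𝓞 K) := by
  have h0 : ∑ i ∈ range n, w ^ i = 0 := by
    have h := geom_sum_mul w n
    rw [hw, sub_self] at h
    exact (mul_eq_zero.mp h).resolve_right (sub_ne_zero.mpr hw1)
  have h1 : ((n : ℕ) : 𝓞 K) = ∑ i ∈ range n, (1 - w ^ i) := by
    rw [Finset.sum_sub_distrib, h0]
    simp
  rw [h1]
  refine Finset.dvd_sum fun i _ => ?_
  have h2 := sub_dvd_pow_sub_pow (1 : 𝓞 K) w i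
  rwa [one_pow] at h2

end

theorem lte {p : ℕ} (hp : p.Prime) (hp3 : 3 ≤ p) {x Y : ℤ} (hxY : (p : ℤ) ∣ x - Y)
    (hx : ¬ (p : ℤ) ∣ x) {N : ℕ} (h : (p : ℤ) ^ (N + 1) ∣ x ^ p - Y ^ p) :
    (p : ℤ) ^ N ∣ x - Y := by
  have hodd : Odd p := hp.odd_of_ne_two (by omega)
  have h1 := Int.emultiplicity_pow_sub_pow hp hodd hxY hx p
  have h2 : emultiplicity p p = 1 := by
    have h3 : FiniteMultiplicity p p := by
      rw [Nat.finiteMultiplicity_iff]
      exact ⟨hp.ne_one, hp.pos⟩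
    exact h3.emultiplicity_self
  rw [h2] at h1
  have h3 : ((N + 1 : ℕ) : ℕ∞) ≤ emultiplicity (p : ℤ) (x ^ p - Y ^ p) :=
    pow_dvd_iff_le_emultiplicity.mp h
  rw [h1] at h3
  push_cast at h3
  have h4 : (N : ℕ∞) ≤ emultiplicity (p : ℤ) (x - Y) := by
    exact (ENat.add_le_add_iff_right ENat.one_ne_top).mp h3
  exact pow_dvd_iff_le_emultiplicity.mpr h4

/-- **R3C** -/
theorem r3c : Stmt_Cyd → Stmt_Kup → Stmt_Ltk → Stmt_R3c := by
  intro hcyd hkup hltk p e hp hp3 he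
  obtain ⟨K, _, _, ζ, τ, hζ, hτ, hfin, hdisc⟩ := hcyd p (Or.inl ⟨hp, by omega⟩)
  obtain ⟨C0, hC0, hkup⟩ := hkup
  obtain ⟨P, hP, hP0, hpP⟩ := exists_prime (K := K) hp.two_le
  set S : ℝ := Real.exp ((p : ℝ) ^ C0) with hSdef
  have hS1 : 1 ≤ S := Real.one_le_exp (by positivity)
  obtain ⟨C1, hC1, hltk⟩ := hltk K P hP hP0
  have hN0 : (⌊S⌋₊ * (2 * p)).factorial ≠ 0 := Nat.factorial_ne_zero _
  obtain ⟨M3, hM3⟩ := exists_exponent hP hN0
  have hm30 : (0 : ℝ) ≤ M3 := Nat.cast_nonneg _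
  have hlp : 0 ≤ Real.log (2 * p) := Real.log_nonneg (by
    have : (3 : ℝ) ≤ p := by exact_mod_cast hp3
    linarith)
  set C2 : ℝ := 2 * C1 * S * (1 + Real.log (2 * p)) with hC2def
  have hC20 : 0 ≤ C2 := by positivity
  refine ⟨C2 + 4 + 2 * M3, by linarith, ?_⟩
  intro x y c k hx hy hxy hk hc hrc hE
  have hodd : Odd p := hp.odd_of_ne_two (by omega)
  -- the integer `Z = - e y`
  obtain ⟨Z, hZ⟩ : ∃ Z : ℤ, Z = -e * (y : ℤ) := ⟨_, rfl⟩
  have hcop0 : IsCoprime (x : ℤ) (y : ℤ) := Nat.isCoprime_iff_coprime.mpr hxy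
  have hcop : IsCoprime (x : ℤ) Z := by
    rcases he with rfl | rfl
    · have : Z = -(y : ℤ) := by rw [hZ]; ring
      rw [this]; exact hcop0.neg_right
    · have : Z = (y : ℤ) := by rw [hZ]; ring
      rw [this]; exact hcop0
  have hEZ : (x : ℤ) ^ p - Z ^ p = (c : ℤ) ^ k := by
    rw [← hE]
    rcases he with rfl | rfl
    · have : Z = -(y : ℤ) := by rw [hZ]; ring
      rw [this, hodd.neg_pow]; ring
    · have : Z = (y : ℤ) := by rw [hZ]; ring
      rw [this]; ring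
  have hxZ : (x : ℤ) ≠ Z := by
    intro h
    rw [h, sub_self] at hEZ
    have h1 : (c : ℤ) ^ k ≠ 0 := pow_ne_zero _ (by exact_mod_cast (by omega : c ≠ 0))
    exact h1 hEZ.symm
  have hfact : Fact p.Prime := ⟨hp⟩
  have hpc : (p : ℤ) ∣ (c : ℤ) := by exact_mod_cast hrc
  have hpE : (p : ℤ) ∣ (x : ℤ) ^ p - Z ^ p := by
    rw [hEZ]
    exact dvd_pow hpc (by omega)
  have hpprime : Prime (p : ℤ) := Nat.prime_iff_prime_int.mp hp
  have hpx : ¬ (p : ℤ) ∣ (x : ℤ) := by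
    intro h
    have h1 : (p : ℤ) ∣ Z ^ p := by
      have h2 : (p : ℤ) ∣ (x : ℤ) ^ p := dvd_pow h hp.ne_zero
      have h3 := dvd_sub h2 hpE
      rwa [sub_sub_cancel] at h3
    have h2 := hpprime.dvd_of_dvd_pow h1
    exact hpprime.not_unit (hcop.isUnit_of_dvd' h h2)
  have hpZ : ¬ (p : ℤ) ∣ Z := by
    intro h
    have h1 : (p : ℤ) ∣ (x : ℤ) ^ p := by
      have h2 : (p : ℤ) ∣ Z ^ p := dvd_pow h hp.ne_zero
      have h3 := dvd_add hpE h2
      rwa [sub_add_cancel] at h3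
    exact hpx (hpprime.dvd_of_dvd_pow h1)
  have hpxZ : (p : ℤ) ∣ (x : ℤ) - Z := by
    rw [← ZMod.intCast_zmod_eq_zero_iff_dvd]
    have h1 := (ZMod.intCast_zmod_eq_zero_iff_dvd ((x : ℤ) ^ p - Z ^ p) p).mpr hpE
    rw [Int.cast_sub, Int.cast_pow, Int.cast_pow, ZMod.pow_card, ZMod.pow_card] at h1
    rw [Int.cast_sub]
    exact h1
  have hv1 : 1 ≤ padicValNat p c := one_le_padicValNat_of_dvd (by omega) hrc
  set v : ℕ := padicValNat p c with hvdef
  -- logarithms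
  have hl2 : (1 : ℝ) / 2 ≤ Real.log 2 := by
    have := Real.log_two_gt_d9
    linarith
  have hlc : Real.log 2 ≤ Real.log c :=
    Real.log_le_log (by norm_num) (by exact_mod_cast hc)
  have hlc0 : 0 < Real.log c := by linarith
  have hlk : 0 ≤ Real.log k := Real.log_natCast_nonneg k
  have hsq : 1 ≤ (1 + Real.log k) ^ 2 := by nlinarith
  have hsq0 : 0 ≤ Real.log c * (1 + Real.log k) ^ 2 := by positivity
  have hsplit : (C2 + 4 + 2 * M3) * Real.log c * (1 + Real.log k) ^ 2 =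
      C2 * (Real.log c * (1 + Real.log k) ^ 2) + 4 * (Real.log c * (1 + Real.log k) ^ 2) +
      2 * M3 * (Real.log c * (1 + Real.log k) ^ 2) := by ring
  have hfour : (2 : ℝ) ≤ 4 * (Real.log c * (1 + Real.log k) ^ 2) := by nlinarith
  have hc20' : 0 ≤ C2 * (Real.log c * (1 + Real.log k) ^ 2) := by positivity
  have hm30' : 0 ≤ 2 * M3 * (Real.log c * (1 + Real.log k) ^ 2) := by positivity
  have hm3le : (M3 : ℝ) ≤ 2 * M3 * (Real.log c * (1 + Real.log k) ^ 2) := by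
    have h1 : (1 : ℝ) ≤ 2 * (Real.log c * (1 + Real.log k) ^ 2) := by nlinarith
    have h2 := mul_le_mul_of_nonneg_left h1 hm30
    linarith
  rw [hsplit]
  -- the exponent
  by_cases hM : k * v ≤ 2
  · have h1 : (k : ℝ) * (v : ℝ) ≤ 2 := by exact_mod_cast hM
    linarith
  push Not at hM
  obtain ⟨N, hN⟩ : ∃ N, k * v = N + 2 := ⟨k * v - 2, by omega⟩
  have hN1 : 1 ≤ N := by omega
  have hgoal : (k : ℝ) * (v : ℝ) = N + 2 := by exact_mod_cast hN
  rw [hgoal]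
  have hdvd : (p : ℤ) ^ (N + 1) ∣ (x : ℤ) - Z := by
    refine lte hp hp3 hpxZ hpx ?_
    rw [hEZ]
    have h1 : (p : ℤ) ^ v ∣ (c : ℤ) := by
      exact_mod_cast (pow_padicValNat_dvd : p ^ padicValNat p c ∣ c)
    have h2 := pow_dvd_pow_of_dvd h1 k
    rw [← pow_mul, mul_comm v k, hN] at h2
    exact h2
  obtain ⟨t, ht⟩ := hdvd
  have ht0 : t ≠ 0 := by
    rintro rfl
    rw [mul_zero] at ht
    exact hxZ (sub_eq_zero.mp ht)
  -- the field
  have hζp : ζ ^ p = 1 := hζ.pow_eq_one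
  have hζ1 : ζ ≠ 1 := hζ.ne_one (by omega)
  have hτζ := tau_root hp.ne_zero hζp hτ
  obtain ⟨s, α, hs1, hsS, hα, hτα, hrel, hPα, hPτα⟩ :=
    hkup K p ζ τ (x : ℤ) Z c k 1 (Or.inl ⟨hp, by omega⟩) hζ hτ hfin hdisc hcop hc (by omega)
      (Or.inl hEZ) (Nat.coprime_one_left p)
  rw [pow_one] at hrel
  set w : 𝓞 K := τ ζ with hwdef
  have hwp : w ^ p = 1 := by rw [hwdef, ← map_pow, hζp, map_one]
  have hw1 : w ≠ 1 := by
    intro h
    rw [h, one_mul] at hτζ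
    exact hζ1 hτζ
  have hαP : α ∉ P := fun h => (hPα P hP h).2 hpP
  have hταP : τ α ∉ P := fun h => (hPτα P hP h).2 hpP
  have h1P : (1 : 𝓞 K) ∉ P := fun h => hP.ne_top ((Ideal.eq_top_iff_one P).mpr h)
  have hZP : ((Z : ℤ) : 𝓞 K) ∉ P := by
    intro h
    have hcopp : IsCoprime (p : ℤ) Z :=
      (Int.prime_iff_natAbs_prime.mpr (by simpa using hp)).coprime_iff_not_dvd.mpr hpZ
    obtain ⟨a, b, hab⟩ := hcopp
    apply h1P
    have h8 : ((a : ℤ) : 𝓞 K) * ((p : ℕ) : 𝓞 K) + ((b : ℤ) : 𝓞 K) * ((Z : ℤ) : 𝓞 K) ∈ P :=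
      P.add_mem (P.mul_mem_left _ hpP) (P.mul_mem_left _ h)
    have h9 : ((a : ℤ) : 𝓞 K) * ((p : ℕ) : 𝓞 K) + ((b : ℤ) : 𝓞 K) * ((Z : ℤ) : 𝓞 K) = 1 := by
      exact_mod_cast congrArg (Int.cast : ℤ → 𝓞 K) hab
    rwa [h9] at h8
  obtain ⟨μ, hμ⟩ := one_sub_dvd hζp hζ1
  obtain ⟨μ', hμ'⟩ := one_sub_dvd hwp hw1
  have htK : ((x : ℤ) : 𝓞 K) - ((Z : ℤ) : 𝓞 K) = ((p : ℕ) : 𝓞 K) ^ (N + 1) * ((t : ℤ) : 𝓞 K) := by
    have h1 := congrArg (Int.cast : ℤ → 𝓞 K) ht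
    push_cast at h1 ⊢
    exact h1
  set q : 𝓞 K := ((p : ℕ) : 𝓞 K) ^ N * ((t : ℤ) : 𝓞 K) with hqdef
  have hq0 : q ≠ 0 := by
    have h1 : ((p : ℕ) : 𝓞 K) ≠ 0 := by exact_mod_cast hp.ne_zero
    have h2 : ((t : ℤ) : 𝓞 K) ≠ 0 := by exact_mod_cast ht0
    exact mul_ne_zero (pow_ne_zero _ h1) h2
  have hqP : q ∈ P ^ N := Ideal.mul_mem_right _ _ (Ideal.pow_mem_pow hpP N)
  have hpq : ((x : ℤ) : 𝓞 K) - ((Z : ℤ) : 𝓞 K) = ((p : ℕ) : 𝓞 K) * q := by
    rw [htK, hqdef, pow_succ]; ring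
  set u : 𝓞 K := ((Z : ℤ) : 𝓞 K) + μ * q with hudef
  set u' : 𝓞 K := ((Z : ℤ) : 𝓞 K) + μ' * q with hu'def
  have hzu : ((x : ℤ) : 𝓞 K) - ζ * ((Z : ℤ) : 𝓞 K) = (1 - ζ) * u := by
    rw [hudef]
    linear_combination hpq + q * hμ
  have hzu' : ((x : ℤ) : 𝓞 K) - w * ((Z : ℤ) : 𝓞 K) = (1 - w) * u' := by
    rw [hu'def]
    linear_combination hpq + q * hμ'
  have hu'P : u' ∉ P := by
    intro h
    have h1 : μ' * q ∈ P := P.mul_mem_left _ (Ideal.pow_le_self (by omega) hqP)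
    have h2 := P.sub_mem h h1
    rw [hu'def, add_sub_cancel_right] at h2
    exact hZP h2
  have huu' : u - u' ∈ P ^ N := by
    have h1 : u - u' = (μ - μ') * q := by rw [hudef, hu'def]; ring
    rw [h1]
    exact Ideal.mul_mem_left _ _ hqP
  have hne : u ≠ u' := by
    intro h
    have h1 : (μ - μ') * q = 0 := by
      have h2 : u - u' = (μ - μ') * q := by rw [hudef, hu'def]; ring
      rw [← h2, h, sub_self]
    have h2 : μ = μ' := sub_eq_zero.mp ((mul_eq_zero.mp h1).resolve_right hq0)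
    have hμ0 : μ' ≠ 0 := by
      rintro rfl
      rw [mul_zero] at hμ'
      exact hp.ne_zero (by exact_mod_cast hμ')
    have h3 : (1 - ζ) * μ' = (1 - w) * μ' := by rw [← hμ', ← h2, ← hμ]
    have h4 := mul_right_cancel₀ hμ0 h3
    have h5 : ζ = w := by linear_combination -h4
    rw [← h5] at hτζ
    have h6 : ζ ^ 2 = 1 := by rw [sq]; exact hτζ
    have h7 := hζ.dvd_of_pow_eq_one 2 h6
    have := Nat.le_of_dvd (by norm_num) h7
    omega
  have hneg : (-ζ) ^ (2 * p) = 1 := by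
    rw [pow_mul, neg_sq, ← pow_mul, mul_comm 2 p, pow_mul, hζp, one_pow]
  have h1w : (1 - w) ≠ 0 := sub_ne_zero.mpr hw1.symm
  have h1ζ : (1 - ζ) = (-ζ) * (1 - w) := by linear_combination (-1 : 𝓞 K) * hτζ
  have hα0 : α ≠ 0 := fun h => hαP (h ▸ P.zero_mem)
  have hrel2 : u ^ (s * (2 * p)) * (τ α) ^ (2 * p * k) =
      u' ^ (s * (2 * p)) * α ^ (2 * p * k) := by
    rw [hzu, hzu'] at hrel
    have e1 : (1 - ζ) ^ (s * (2 * p)) = (1 - w) ^ (s * (2 * p)) := by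
      rw [h1ζ, mul_pow, mul_comm s (2 * p), pow_mul (-ζ), hneg, one_pow, one_mul]
    have h2 : ((1 - ζ) * u) ^ (s * (2 * p)) * (τ α) ^ (2 * p * k) =
        ((1 - w) * u') ^ (s * (2 * p)) * α ^ (2 * p * k) := by
      calc ((1 - ζ) * u) ^ (s * (2 * p)) * (τ α) ^ (2 * p * k)
          = (((1 - ζ) * u) ^ s * (τ α) ^ k) ^ (2 * p) := by
            rw [mul_pow (((1 - ζ) * u) ^ s), ← pow_mul, ← pow_mul, mul_comm k (2 * p)]
        _ = (((1 - w) * u') ^ s * α ^ k) ^ (2 * p) := by rw [hrel]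
        _ = ((1 - w) * u') ^ (s * (2 * p)) * α ^ (2 * p * k) := by
            rw [mul_pow (((1 - w) * u') ^ s), ← pow_mul, ← pow_mul, mul_comm k (2 * p)]
    rw [mul_pow, mul_pow (1 - w), e1] at h2
    refine mul_left_cancel₀ (pow_ne_zero (s * (2 * p)) h1w) ?_
    linear_combination h2
  by_cases heq : (τ α) ^ (2 * p * k) = α ^ (2 * p * k)
  · -- degenerate
    rw [heq] at hrel2
    have h1 := mul_right_cancel₀ (pow_ne_zero _ hα0) hrel2
    have h2 := mem_of_pow_eq (P ^ N) h1 hne huu'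
    have := hP
    rw [mul_comm] at h2
    have hdeg : ((s * (2 * p) : ℕ) : 𝓞 K) ∈ P ^ N :=
      (Ideal.IsPrime.mul_mem_pow P h2).resolve_left
        (fun h => hu'P (hP.mem_of_pow_mem _ h))
    have hlt : N ≤ M3 := by
      by_contra hcon
      push Not at hcon
      apply hM3
      refine Ideal.pow_le_pow_right hcon.le ?_
      have h1 : s ≤ ⌊S⌋₊ := Nat.le_floor hsS
      have h2 : s * (2 * p) ∣ (⌊S⌋₊ * (2 * p)).factorial :=
        Nat.dvd_factorial (by have := hp.pos; positivity) (Nat.mul_le_mul_right _ h1)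
      obtain ⟨d, hd⟩ := h2
      rw [hd, Nat.cast_mul]
      exact Ideal.mul_mem_right _ _ hdeg
    have h7 : (N : ℝ) ≤ M3 := by exact_mod_cast hlt
    linarith
  · have hcong : (τ α) ^ (2 * p * k) - α ^ (2 * p * k) ∈ P ^ N := by
      have hd : u ^ (s * (2 * p)) - u' ^ (s * (2 * p)) ∈ P ^ N :=
        Ideal.mem_of_dvd _ (sub_dvd_pow_sub_pow _ _ _) huu'
      have h1 : u' ^ (s * (2 * p)) * ((τ α) ^ (2 * p * k) - α ^ (2 * p * k)) ∈ P ^ N := by
        have h2 := Ideal.mul_mem_right (-(τ α) ^ (2 * p * k)) _ hd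
        have e1 : (u ^ (s * (2 * p)) - u' ^ (s * (2 * p))) * (-(τ α) ^ (2 * p * k)) =
            u' ^ (s * (2 * p)) * ((τ α) ^ (2 * p * k) - α ^ (2 * p * k)) := by
          linear_combination (-1 : 𝓞 K) * hrel2
        rwa [e1] at h2
      have := hP
      exact (Ideal.IsPrime.mul_mem_pow P h1).resolve_left
        (fun h => hu'P (hP.mem_of_pow_mem _ h))
    have hA1 : 1 ≤ 2 * S * Real.log c := by nlinarith
    have hAle : S * Real.log c ≤ 2 * S * Real.log c := by nlinarith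
    have hn1 : 1 ≤ 2 * p * k := Nat.one_le_iff_ne_zero.mpr (by
      have := hp.pos
      positivity)
    have hfinal := hltk (τ α) α (2 * p * k) N (2 * S * Real.log c) hταP hαP hn1 hA1
      (HB_mono hτα hAle) (HB_mono hα hAle) heq hcong
    have hk0 : (k : ℝ) ≠ 0 := by exact_mod_cast (by omega : k ≠ 0)
    have hp0 : (2 * p : ℝ) ≠ 0 := by
      have : (p : ℝ) ≠ 0 := by exact_mod_cast hp.ne_zero
      positivity
    push_cast at hfinal
    rw [Real.log_mul hp0 hk0] at hfinal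
    have h5 : 1 + (Real.log (2 * p) + Real.log k) ≤
        (1 + Real.log (2 * p)) * (1 + Real.log k) ^ 2 := by nlinarith [mul_nonneg hlp hlk]
    have h6 : C1 * (2 * S * Real.log c) * (1 + (Real.log (2 * p) + Real.log k)) ≤
        C1 * (2 * S * Real.log c) * ((1 + Real.log (2 * p)) * (1 + Real.log k) ^ 2) :=
      mul_le_mul_of_nonneg_left h5 (by positivity)
    have h7 : C1 * (2 * S * Real.log c) * ((1 + Real.log (2 * p)) * (1 + Real.log k) ^ 2) =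
        C2 * (Real.log c * (1 + Real.log k) ^ 2) := by rw [hC2def]; ring
    linarith

end Pool.Agent.Work.MP_2738db_nt_Y.helper51
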